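import Mathlib
import Pool.Agent.Helper61.TH.D5

/-!
# OB: orbit lengths. Definitions

`c : Idx d → F` is the vector of the coefficients of rational functions `φ_a` of degrees `d a`; `form c a` is the pair of
binary forms of `φ_a` (`Helper61.TH`).
-/

set_option autoImplicit false

namespace Pool.Agent.Helper26.OB

open Pool.Agent.Helper61.TH Pool.Agent.Helper87.FK

noncomputable section

/-- the point of the projective line with the homogeneous coordinates `x` -/
def pr {F : Type*} [Field F] (x : Fin 2 → F) : Option F :=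
  open Classical in if x 1 = 0 then none else some (x 0 / x 1)

/-- the length of the orbit of the point `x` of the projective line under an endomorphism `σ` of the field; `0` if the
point is not periodic -/
def ol {F : Type*} [Field F] (σ : F →+* F) (x : Fin 2 → F) : ℕ :=
  Function.minimalPeriod (Option.map σ) (pr x)

/-- all prime factors of `e` are at most `D` -/
def Smooth (D e : ℕ) : Prop := ∀ r, r.Prime → r ∣ e → r ≤ D

/-- `a` and `b` lie in one cycle of `π` -/
def Adm {k : ℕ} (π : Fin k → Fin k) (a b : Fin k) : Prop := (∃ m : ℕ, π^[m + 1] a = b) ∧ ∃ n : ℕ, π^[n] b = a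

/-- the homogenised Wronskian `F' G - F G'` of the rational function `φ_a = F / G` -/
def wrh {R : Type*} [CommRing R] {s : ℕ} {d : Fin s → ℕ} (c : Idx d → R) (a : Fin s) (x : Fin 2 → R) : R :=
  ∑ i : Fin (d a + 1), ∑ j : Fin (d a + 1), ((i : ℕ) - (j : ℕ) : R) * c ⟨a, (0, i)⟩ * c ⟨a, (1, j)⟩ *
    x 0 ^ ((i : ℕ) + j - 1) * x 1 ^ (2 * d a - 1 - i - j)

/-- the residue of `τ z`, if `τ z` is integral -/
def rd {p : ℕ} [Fact p.Prime] (τ : ℂ →+* PadicAlgCl p) (z : ℂ) : kk p :=
  open Classical in if h : ‖τ z‖ ≤ 1 then Ideal.Quotient.mk (mm p) ⟨τ z, mem_Oc.2 h⟩ else 0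

/-- the numbers in `Z` are integral, the nonzero ones are units -/
def Un {p : ℕ} [Fact p.Prime] (τ : ℂ →+* PadicAlgCl p) (Z : Finset ℂ) : Prop :=
  ∀ z ∈ Z, ‖τ z‖ ≤ 1 ∧ (z ≠ 0 → ‖τ z‖ = 1)

/-- the residue field has characteristic `p` -/
theorem charP_kk (p : ℕ) [hp : Fact p.Prime] : CharP (kk p) p := by
  have h1 : Ideal.Quotient.mk (mm p) ((p : ℕ) : Oc p) = 0 := Ideal.Quotient.eq_zero_iff_mem.2 p_mem_mm
  rw [map_natCast] at h1
  obtain ⟨q, hq⟩ := CharP.exists (kk p)
  have h2 : q ∣ p := (CharP.cast_eq_zero_iff (kk p) q p).1 h1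
  rcases (Nat.dvd_prime hp.out).1 h2 with h3 | h3
  · subst h3
    exact absurd hq (fun h => CharP.char_ne_one (kk p) 1 rfl)
  · subst h3
    exact hq

end

end Pool.Agent.Helper26.OB
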