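import Mathlib
import Pool.Agent.Helper26.OB.Defs

/-!
# OB: residues of values of forms; orbit lengths of residues
-/

set_option autoImplicit false

namespace Pool.Agent.Helper26.OB

open MvPolynomial Pool.Agent.Helper86.DML Pool.Agent.Helper61.TH Pool.Agent.Helper87.FK
open Pool.Agent.Helper26.FU (MultiHom eval_multi)

noncomputable section

section residue

variable {p : ℕ} [hp : Fact p.Prime] (τ : ℂ →+* PadicAlgCl p)

/-- the integral numbers -/
def Ot : Subring ℂ := (Oc p).toSubring.comap τ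

theorem mem_Ot {z : ℂ} : z ∈ Ot τ ↔ ‖τ z‖ ≤ 1 := by
  change τ z ∈ Oc p ↔ _
  exact mem_Oc

/-- the residue -/
def rh : Ot τ →+* kk p :=
  (Ideal.Quotient.mk (mm p)).comp
    { toFun := fun z => ⟨τ z, mem_Oc.2 ((mem_Ot τ).1 z.2)⟩
      map_one' := Subtype.ext (by simp)
      map_mul' := fun x y => Subtype.ext (by simp)
      map_zero' := Subtype.ext (by simp)
      map_add' := fun x y => Subtype.ext (by simp) }

theorem rd_coe (z : Ot τ) : rd τ (z : ℂ) = rh τ z := by
  unfold rd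
  rw [dif_pos ((mem_Ot τ).1 z.2)]
  rfl

theorem rh_eq_zero (z : Ot τ) : rh τ z = 0 ↔ ‖τ z‖ < 1 := by
  change Ideal.Quotient.mk (mm p) _ = 0 ↔ _
  rw [Ideal.Quotient.eq_zero_iff_mem, mem_mm]
  rfl

theorem rd_eq_zero {z : ℂ} (hz : ‖τ z‖ ≤ 1) : rd τ z = 0 ↔ ‖τ z‖ < 1 := by
  have h1 := rh_eq_zero τ ⟨z, (mem_Ot τ).2 hz⟩
  rw [← rd_coe] at h1
  exact h1

theorem norm_of_rd_ne_zero {z : ℂ} (hz : ‖τ z‖ ≤ 1) (h : rd τ z ≠ 0) : ‖τ z‖ = 1 := by
  by_contra hne
  exact h ((rd_eq_zero τ hz).2 (lt_of_le_of_ne hz hne))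

theorem rd_one : rd τ 1 = 1 := by
  have h1 := rd_coe τ 1
  rw [map_one] at h1
  exact h1

theorem rd_zero : rd τ 0 = 0 := by
  have h1 := rd_coe τ 0
  rw [map_zero] at h1
  exact h1

variable {s : ℕ} {d : Fin s → ℕ}

/-- values of words -/
theorem rd_word (c : Idx d → ℂ) (hc : ∀ q, ‖τ (c q)‖ ≤ 1) (x : Fin 2 → ℂ) (hx : ∀ i, ‖τ (x i)‖ ≤ 1)
    (u : List (Fin s)) : (∀ i, ‖τ (ev (word c u) x i)‖ ≤ 1) ∧
      (fun i => rd τ (ev (word c u) x i)) = ev (word (fun q => rd τ (c q)) u) (fun i => rd τ (x i)) := by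
  let c' : Idx d → Ot τ := fun q => ⟨c q, (mem_Ot τ).2 (hc q)⟩
  let x' : Fin 2 → Ot τ := fun i => ⟨x i, (mem_Ot τ).2 (hx i)⟩
  have h1 : ∀ i, ((ev (word c' u) x' i : Ot τ) : ℂ) = ev (word c u) x i := by
    intro i
    have h2 : word c u i = map (Ot τ).subtype (word c' u i) := by
      rw [map_word]
      rfl
    rw [ev, ev, h2, eval_map]
    change (Ot τ).subtype (eval x' (word c' u i)) = _
    rw [show x = (Ot τ).subtype ∘ x' from rfl, eval₂_comp]
  refine ⟨fun i => ?_, ?_⟩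
  · rw [← h1]
    exact (mem_Ot τ).1 (ev (word c' u) x' i).2
  · funext i
    rw [← h1, rd_coe]
    have h3 : word (fun q => rd τ (c q)) u i = map (rh τ) (word c' u i) := by
      rw [map_word]
      congr 1
      funext q
      exact rd_coe τ (c' q)
    have h4 : (fun i => rd τ (x i)) = rh τ ∘ x' := by
      funext i
      exact rd_coe τ (x' i)
    rw [ev, ev, h3, eval_map, h4, eval₂_comp]

/-- values of the Jacobian determinant -/
theorem rd_jac (c : Idx d → ℂ) (hc : ∀ q, ‖τ (c q)‖ ≤ 1) (x : Fin 2 → ℂ) (hx : ∀ i, ‖τ (x i)‖ ≤ 1)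
    (a : Fin s) : ‖τ (jac (form c a) x).det‖ ≤ 1 ∧
      rd τ (jac (form c a) x).det = (jac (form (fun q => rd τ (c q)) a) (fun i => rd τ (x i))).det := by
  let c' : Idx d → Ot τ := fun q => ⟨c q, (mem_Ot τ).2 (hc q)⟩
  let x' : Fin 2 → Ot τ := fun i => ⟨x i, (mem_Ot τ).2 (hx i)⟩
  have hgen : ∀ {S : Type} [CommRing S] (f : Ot τ →+* S),
      f (jac (form c' a) x').det = (jac (form (fun q => f (c' q)) a) (fun i => f (x' i))).det := by
    intro S _ f
    rw [RingHom.map_det]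
    congr 1
    ext i j
    rw [RingHom.mapMatrix_apply, Matrix.map_apply, jac, jac, Matrix.of_apply, Matrix.of_apply,
      ← map_form f c' a i, pderiv_map, eval_map, show (fun i => f (x' i)) = f ∘ x' from rfl, eval₂_comp]
  have h1 := hgen (Ot τ).subtype
  have h2 := hgen (rh τ)
  have h3 : (jac (form c a) x).det = (((jac (form c' a) x').det : Ot τ) : ℂ) := h1.symm
  refine ⟨?_, ?_⟩
  · rw [h3]
    exact (mem_Ot τ).1 ((jac (form c' a) x').det).2
  · rw [h3, rd_coe, h2]
    have h4 : (fun q => rd τ (c q)) = fun q => rh τ (c' q) := by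
      funext q
      exact rd_coe τ (c' q)
    have h5 : (fun i => rd τ (x i)) = fun i => rh τ (x' i) := by
      funext i
      exact rd_coe τ (x' i)
    rw [h4, h5]

end residue

section period

theorem option_iterate {F : Type*} (f : F → F) (n : ℕ) (z : F) : (Option.map f)^[n] (some z) = some (f^[n] z) := by
  induction n generalizing z with
  | zero => rfl
  | succ n ih => rw [Function.iterate_succ_apply, Function.iterate_succ_apply, Option.map_some, ih]

theorem option_iterate_none {F : Type*} (f : F → F) (n : ℕ) : (Option.map f)^[n] none = none := by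
  induction n with
  | zero => rfl
  | succ n ih => rw [Function.iterate_succ_apply, Option.map_none, ih]

theorem pr_one {F : Type*} [Field F] (x : Fin 2 → F) (h : x 1 = 1) : pr x = some (x 0) := by
  unfold pr
  rw [if_neg (by rw [h]; exact one_ne_zero), h, div_one]

theorem pr_inf {F : Type*} [Field F] (x : Fin 2 → F) (h : x 1 = 0) : pr x = none := by
  unfold pr
  rw [if_pos h]

theorem ol_inf {F : Type*} [Field F] (σ : F →+* F) (x : Fin 2 → F) (h : x 1 = 0) : ol σ x = 1 := by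
  unfold ol
  rw [pr_inf x h, Function.minimalPeriod_eq_one_iff_isFixedPt]
  rfl

variable {p : ℕ} [hp : Fact p.Prime]

instance : CharP (kk p) p := charP_kk p

/-- the residue has the orbit length of the number -/
theorem ol_rd (σ : ℂ →+* ℂ) (τ : ℂ →+* PadicAlgCl p) (y : Fin 2 → ℂ)
    (hy : (y 1 = 1 ∧ ‖τ (y 0)‖ ≤ 1 ∧ ∀ m : ℕ, ‖(τ (y 0)) ^ p ^ m - τ (y 0)‖ < 1 ↔ σ^[m] (y 0) = y 0) ∨
      (y 1 = 0)) :
    ol (frobenius (kk p) p) (fun i => rd τ (y i)) = ol σ y := by
  rcases hy with ⟨h1, h2, h3⟩ | h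
  · unfold ol
    rw [pr_one y h1, pr_one (fun i => rd τ (y i)) (by rw [h1, rd_one])]
    rw [Function.minimalPeriod_eq_minimalPeriod_iff]
    intro n
    unfold Function.IsPeriodicPt Function.IsFixedPt
    rw [option_iterate, option_iterate, Option.some_inj, Option.some_inj, iterate_frobenius, ← h3 n]
    let z' : Ot τ := ⟨y 0, (mem_Ot τ).2 h2⟩
    have h4 : rd τ (y 0) ^ p ^ n - rd τ (y 0) = rh τ (z' ^ p ^ n - z') := by
      rw [map_sub, map_pow, ← rd_coe]
    rw [← sub_eq_zero, h4, rh_eq_zero]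
    have h5 : τ ((z' ^ p ^ n - z' : Ot τ) : ℂ) = (τ (y 0)) ^ p ^ n - τ (y 0) := by
      push_cast
      rw [map_sub, map_pow]
    rw [h5]
  · rw [ol_inf σ y h, ol_inf _ _ (by rw [h, rd_zero])]

end period

end

end Pool.Agent.Helper26.OB
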