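import Pool.Agent.Helper26.OB.Fin2

/-!
# OB: the theorem in the form of the result file
-/

set_option autoImplicit false

namespace Pool.Agent.Helper26.OB

open MvPolynomial Pool.Agent.Helper86.DML Pool.Agent.Helper61.TH Pool.Agent.Helper87.FK
open Pool.Agent.Helper26.FU (MultiHom)

noncomputable section

theorem form3 {k : ℕ} (d : Fin k → ℕ) (hd : ∀ a, 1 ≤ d a) (c : Idx d → ℂ) (hdeg : HasDeg c)
    (π : Fin k → Fin k) (K : Subfield ℂ) (hc : ∀ q, c q ∈ K) (α : Fin k → Fin 2 → ℂ) (hα : ∀ b, α b ≠ 0)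
    (h : (∃ l : ℕ, l.Prime ∧ (∀ a, 2 * d a - 2 < l) ∧ k ≤ l ∧
        ∀ b, (∃ a, Adm π a b ∧ 2 ≤ d a) → Transcendental K (α b 0 / α b 1) ∨
          NumberField K ∧ l ∣ (minpoly K (α b 0 / α b 1)).natDegree) ∨
      (NumberField K ∧ ∃ σ : ℂ ≃+* ℂ, (∀ z ∈ K, σ z = z) ∧ ∀ a b, Adm π a b →
        IsAlgebraic ℚ (α b 0 / α b 1) → ∀ x : Fin 2 → ℂ, x ≠ 0 → wrh c a x = 0 →
        ∀ e, (∀ r : ℕ, r.Prime → r ∣ e → ∃ a', r ≤ d a') →
          sInf {n | 1 ≤ n ∧ σ^[n] (α b 0) * α b 1 = α b 0 * σ^[n] (α b 1)} ≠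
            e * sInf {n | 1 ≤ n ∧ σ^[n] (x 0) * x 1 = x 0 * σ^[n] (x 1)}))
    (V : Set (MvPolynomial (Fin k × Fin 2) ℂ)) (hV : ∀ G ∈ V, MultiHom G) : ∃ S : Finset (ℕ × ℕ),
      {m : ℕ | ∀ G ∈ V, eval (fun q => (sysMap c id π)^[m] α q.1 q.2) G = 0} =
        {m | ∃ q ∈ S, ∃ j, m = q.1 + q.2 * j} := by
  classical
  set D : ℕ := Finset.univ.sup d with hD
  have hdD : ∀ a, d a ≤ D := fun a => Finset.le_sup (f := d) (Finset.mem_univ a)
  have hDa : D = 0 ∨ ∃ a, D = d a := by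
    rcases (Finset.univ : Finset (Fin k)).eq_empty_or_nonempty with h0 | h0
    · left
      rw [hD, h0, Finset.sup_empty]
      rfl
    · right
      obtain ⟨a, -, ha⟩ := Finset.exists_mem_eq_sup _ h0 d
      exact ⟨a, ha⟩
  rcases h with ⟨l, hl, hld, hk, h⟩ | ⟨hK, σ, hσ, h⟩
  · have hl2 := hl.two_le
    refine final d D (fun a => ⟨hd a, hdD a⟩) c hdeg π K hc l hl ?_ ?_ hk α hα h V hV
    · rcases hDa with h0 | ⟨a, ha⟩
      · omega
      · have h1 := hld a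
        have h2 := hd a
        omega
    · rcases hDa with h0 | ⟨a, ha⟩
      · omega
      · have h1 := hld a
        omega
  · have hcalg : ∀ q, IsAlgebraic ℚ (c q) := by
      intro q
      have h1 : IsAlgebraic ℚ (⟨c q, hc q⟩ : K) := Algebra.IsAlgebraic.isAlgebraic _
      exact (isAlgebraic_algebraMap_iff (S := K) (A := ℂ) Subtype.val_injective).2 h1
    refine main d D (fun a => ⟨hd a, hdD a⟩) c hcalg hdeg π α hα σ (fun q => hσ _ (hc q)) ?_ V hV
    intro a b hab halg x hx0 hx e he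
    by_contra hcon
    push Not at hcon
    refine h a b hab halg x hx0 hx e (fun r hr hre => ?_) ?_
    · have h1 := hcon r hr hre
      rcases hDa with h0 | ⟨a', ha'⟩
      · have := hr.two_le
        omega
      · exact ⟨a', ha' ▸ h1⟩
    · rw [← Pool.Agent.Helper38.OB.ol_eq', ← Pool.Agent.Helper38.OB.ol_eq']
      exact he

end

end Pool.Agent.Helper26.OB
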