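import Mathlib
import Pool.Agent.Helper26.FU.Loc

/-!
# OB: orbits which avoid the critical residues
-/

set_option autoImplicit false

namespace Pool.Agent.Helper26.OB

open MvPolynomial Pool.Agent.Helper86.DML Pool.Agent.Helper26.FD Pool.Agent.Helper26.FU

noncomputable section

variable {p : ℕ} [hp : Fact p.Prime]

/-- **Orbits over algebras over `ℚ_p` of dimension at most `D`**, for product actions of maps over the valuation ring,
along an orbit which does not meet the critical locus of the reduction. -/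
theorem main_orb (hp3 : 3 ≤ p) (k n d D : ℕ) (hd : 1 ≤ d) (S : Finset (Fin k × Fin n →₀ ℕ)) :
    ∃ K : ℕ, ∀ (L : Subalgebra ℚ_[p] (PadicAlgCl p)) [FiniteDimensional ℚ_[p] L],
      Module.finrank ℚ_[p] L ≤ D →
      ∀ P : Fin k → Fin n → MvPolynomial (Fin n) (PadicAlgCl p), (∀ b i s, ‖coeff s (P b i)‖ ≤ 1) →
      (∀ b i s, coeff s (P b i) ∈ L) → (∀ b i, (P b i).totalDegree ≤ d) →
      ∀ β : Fin k → Fin n → PadicAlgCl p, (∀ b i, ‖β b i‖ ≤ 1) → (∀ b i, β b i ∈ L) →
      (∀ b m, ‖(Matrix.of fun i j => eval ((pmap (P b))^[m] (β b)) (pderiv j (P b i))).det‖ = 1) →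
      ∀ G : MvPolynomial (Fin k × Fin n) (PadicAlgCl p), G.support ⊆ S → ∀ r : ℕ,
      {m | eval (fun c => (pmap (P c.1))^[bd (k * n) p D + r +
        (bd (k * n) p D).factorial * (bd (k * n) p D).factorial * m] (β c.1) c.2) G = 0}.encard ≤ K ∨
        ∀ m, eval (fun c => (pmap (P c.1))^[bd (k * n) p D + r +
          (bd (k * n) p D).factorial * (bd (k * n) p D).factorial * m] (β c.1) c.2) G = 0 := by
  classical
  obtain ⟨K, hK⟩ := dich_blk hp3 k n d D hd S
  refine ⟨K, ?_⟩
  intro L _ hL P hP1 hPL hdeg β hβ hβL hJ G hGS r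
  let A : Set (PadicAlgCl p) := Set.range (fun c : Fin k × Fin n => β c.1 c.2) ∪
    ⋃ c : Fin k × Fin n, (fun s => coeff s (P c.1 c.2)) ''
      ((P c.1 c.2).support : Set (Fin n →₀ ℕ))
  have hAfin : A.Finite := (Set.finite_range _).union
    (Set.finite_iUnion fun c => (P c.1 c.2).support.finite_toSet.image _)
  have hA1 : ∀ a ∈ A, ‖a‖ ≤ 1 := by
    rintro a (⟨c, rfl⟩ | ha)
    · exact hβ _ _
    · rw [Set.mem_iUnion] at ha
      obtain ⟨i, s, -, rfl⟩ := ha
      exact hP1 _ _ s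
  have hAL : ∀ a ∈ A, a ∈ L := by
    rintro a (⟨c, rfl⟩ | ha)
    · exact hβL _ _
    · rw [Set.mem_iUnion] at ha
      obtain ⟨i, s, -, rfl⟩ := ha
      exact hPL _ _ s
  let O : Subalgebra ℤ_[p] (PadicAlgCl p) := Algebra.adjoin ℤ_[p] A
  obtain ⟨hfin, hfree⟩ := adjoin_finite (p := p) hAfin
    (fun a ha => isIntegral_of_norm_le_one _ (hA1 a ha))
  have hOL : ∀ z ∈ O, z ∈ L.toSubmodule := by
    intro z hz
    have h1 : O ≤ L.restrictScalars ℤ_[p] := Algebra.adjoin_le hAL
    exact h1 hz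
  have hrank : Module.finrank ℤ_[p] O ≤ D := by
    have : FiniteDimensional ℚ_[p] L.toSubmodule :=
      (inferInstance : FiniteDimensional ℚ_[p] L)
    exact (finrank_subalgebra_le O L.toSubmodule hOL).trans hL
  have hρ : ∀ z : O, ‖(O.val : O →+* PadicAlgCl p) z‖ ≤ 1 := fun z => norm_adjoin_le hA1 z.2
  let x₀ : Fin k → Fin n → O := fun b i =>
    ⟨β b i, Algebra.subset_adjoin (Or.inl ⟨(b, i), rfl⟩)⟩
  have hPO : ∀ b i, ∃ P' : MvPolynomial (Fin n) O,
      map (O.val : O →+* PadicAlgCl p) P' = P b i := by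
    intro b i
    have h7 : P b i ∈ Set.range (MvPolynomial.map (σ := Fin n) (O.val : O →+* PadicAlgCl p)) := by
      rw [mem_range_map_iff_coeffs_subset]
      intro a ha
      rw [Finset.mem_coe, mem_coeffs_iff] at ha
      obtain ⟨s, hs, rfl⟩ := ha
      exact ⟨⟨_, Algebra.subset_adjoin (Or.inr (Set.mem_iUnion.2 ⟨(b, i), s, hs, rfl⟩))⟩, rfl⟩
    exact h7
  choose Φ hmapΦ using hPO
  let x : ℕ → Fin k → Fin n → O := fun m b => (pmap (Φ b))^[m] (x₀ b)
  have hx : ∀ m b, x (m + 1) b = pmap (Φ b) (x m b) := fun m b =>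
    Function.iterate_succ_apply' _ _ _
  have hΦdeg : ∀ b i, (Φ b i).totalDegree ≤ d := by
    intro b i
    have h1 := hdeg b i
    rw [← hmapΦ, totalDegree, support_map_of_injective _ Subtype.val_injective] at h1
    exact h1
  have hfunΦ : ∀ b, (fun i => map (O.val : O →+* PadicAlgCl p) (Φ b i)) = P b := fun b =>
    funext (hmapΦ b)
  have hxβ : ∀ m b, (fun i => ((x m b i : O) : PadicAlgCl p)) = (pmap (P b))^[m] (β b) := by
    intro m b
    have h10 := Pool.Agent.Helper87.LD.pmap_map_iterate (O.val : O →+* PadicAlgCl p) (Φ b) m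
      (x₀ b)
    rw [hfunΦ] at h10
    exact h10.symm
  have hdet : ∀ i ℓ, 1 ≤ ℓ → (∀ b j, (p : O) ∣ x (i + ℓ) b j - x i b j) →
      ∀ b, IsUnit (Matrix.of fun a c => eval (x i b) (pderiv c (Φ b a))).det := by
    intro i ℓ _ _ b
    have h1 := hJ b i
    rw [← hxβ i b] at h1
    have h6 := norm_det_map (O.val : O →+* PadicAlgCl p) (Φ b) (x i b)
    have h7 : (Matrix.of fun a c => eval (fun j => ((x i b j : O) : PadicAlgCl p))
        (pderiv c (P b a))).det = (Matrix.of fun a c => eval (fun j =>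
          (O.val : O →+* PadicAlgCl p) (x i b j)) (pderiv c (map (O.val : O →+* PadicAlgCl p)
            (Φ b a)))).det := by
      simp only [hmapΦ]
      rfl
    rw [h7, ← h6] at h1
    have h8 : ((O.val : O →+* PadicAlgCl p)
        (Matrix.of fun a c => eval (x i b) (pderiv c (Φ b a))).det) ≠ 0 := by
      intro h0
      rw [h0, norm_zero] at h1
      exact zero_ne_one h1
    refine isUnit_of_isIntegral_inv O _ h8 (isIntegral_of_norm_le_one _ ?_)
    rw [norm_inv]
    have h9 : ‖(((Matrix.of fun a c => eval (x i b) (pderiv c (Φ b a))).det : O) :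
        PadicAlgCl p)‖ = 1 := h1
    rw [h9, inv_one]
  have h8 := hK O hrank Φ hΦdeg x hx hdet (O.val : O →+* PadicAlgCl p) hρ G hGS r
  have h9 : ∀ m, (fun c : Fin k × Fin n => (O.val : O →+* PadicAlgCl p) (x m c.1 c.2)) =
      fun c => (pmap (P c.1))^[m] (β c.1) c.2 := by
    intro m
    funext c
    exact congrFun (hxβ m c.1) c.2
  simp only [h9] at h8
  exact h8

end

end Pool.Agent.Helper26.OB
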