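import Mathlib
import Pool.Agent.Helper26.OB.Loc
import Pool.Agent.Helper26.OB.Defs

/-!
# OB: the dichotomy along an orbit without critical residues (block E)
-/

set_option autoImplicit false

namespace Pool.Agent.Helper26.OB

open MvPolynomial Pool.Agent.Helper86.DML Pool.Agent.Helper26.FD Pool.Agent.Helper61.TH
open Pool.Agent.Helper26.FU (MultiHom bd expSet support_subset_expSet)
open Pool.Agent.Helper87.FK (Oc mem_Oc)

noncomputable section

variable {s : ℕ} {d : Fin s → ℕ}

theorem pmap_eq_ev {R : Type*} [CommRing R] {n : ℕ} (F : Fin n → MvPolynomial (Fin n) R) (x : Fin n → R) :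
    pmap F x = ev F x := rfl

/-- values of the Jacobian determinant under a homomorphism -/
theorem det_map {R S : Type*} [CommRing R] [CommRing S] (τ : R →+* S) {n : ℕ}
    (F : Fin n → MvPolynomial (Fin n) R) (x : Fin n → R) :
    τ (jac F x).det = (jac (fun i => map τ (F i)) (fun i => τ (x i))).det := by
  rw [RingHom.map_det]
  congr 1
  ext i j
  rw [RingHom.mapMatrix_apply, Matrix.map_apply, jac, jac, Matrix.of_apply, Matrix.of_apply, pderiv_map,
    eval_map, show (fun i => τ (x i)) = τ ∘ x from rfl, eval₂_comp]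

theorem det_word_cons {R : Type*} [CommRing R] (c : Idx d → R) (a : Fin s) (w : List (Fin s)) (x : Fin 2 → R) :
    (jac (word c (a :: w)) x).det = (jac (form c a) (ev (word c w) x)).det * (jac (word c w) x).det := by
  change (jac (fun i => bind₁ (word c w) (form c a i)) x).det = _
  rw [jac_comp, Matrix.det_mul]

theorem det_word_nil {R : Type*} [CommRing R] (c : Idx d → R) (x : Fin 2 → R) :
    (jac (word c []) x).det = 1 := by
  change (jac (fun i => (X i : MvPolynomial (Fin 2) R)) x).det = 1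
  rw [jac_id, Matrix.det_one]

/-- the dichotomy for split maps given by words -/
theorem dichD1 {p : ℕ} [Fact p.Prime] (hp3 : 3 ≤ p) {s : ℕ} (d : Fin s → ℕ)
    (k l D δ : ℕ) : ∃ B : ℕ,
    ∀ (L : Subalgebra ℚ_[p] (PadicAlgCl p)) [FiniteDimensional ℚ_[p] L],
      Module.finrank ℚ_[p] L ≤ D →
    ∀ (c : Idx d → ℂ) (τ : ℂ →+* PadicAlgCl p), (∀ q, ‖τ (c q)‖ ≤ 1) → (∀ q, τ (c q) ∈ L) →
    ∀ w : Fin k → List (Fin s), (∀ b, (w b).length ≤ l) →
    ∀ α : Fin k → Fin 2 → ℂ, (∀ b i, ‖τ (α b i)‖ ≤ 1) → (∀ b i, τ (α b i) ∈ L) →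
      (∀ b m, ‖τ (jac (word c (w b)) ((pmap (word c (w b)))^[m] (α b))).det‖ = 1) →
      Dich k (bd (k * 2) p D) ((bd (k * 2) p D).factorial * (bd (k * 2) p D).factorial) B δ
        (fun m b => (pmap (word c (w b)))^[m] (α b)) := by
  classical
  let dm : ℕ := (∑ a, d a) + 1
  have hdm : ∀ a, d a ≤ dm := fun a =>
    (Finset.single_le_sum (fun i _ => Nat.zero_le (d i)) (Finset.mem_univ a)).trans (Nat.le_succ _)
  have hdm1 : 1 ≤ dm := Nat.le_add_left 1 _
  obtain ⟨K, hK⟩ := main_orb hp3 k 2 (dm ^ l) D (Nat.one_le_pow _ _ hdm1) (expSet k 2 δ)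
  refine ⟨K, ?_⟩
  intro L _ hL c τ hc1 hcL w hw α hα1 hαL hJ G hG hGδ r
  let P : Fin k → Fin 2 → MvPolynomial (Fin 2) ℂ := fun b => word c (w b)
  have hmapP : ∀ b i, MvPolynomial.map τ (P b i) = word (fun q => τ (c q)) (w b) i :=
    fun b i => map_word τ c (w b) i
  have hit : ∀ b m, (pmap (fun i => MvPolynomial.map τ (P b i)))^[m] (fun i => τ (α b i)) =
      fun i => τ ((pmap (P b))^[m] (α b) i) := by
    intro b m
    rw [Pool.Agent.Helper87.LD.pmap_map_iterate]
  have h1 := hK L hL (fun b i => MvPolynomial.map τ (P b i)) (by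
    intro b i t
    rw [hmapP]
    exact mem_Oc.1 (coeff_word_mem (Oc p).toSubring _ (fun q => mem_Oc.2 (hc1 q)) (w b) i t)) (by
    intro b i t
    rw [hmapP]
    exact coeff_word_mem L.toSubring _ (fun q => hcL q) (w b) i t) (by
    intro b i
    have h2 := ((word_homog c (w b) i).map τ).totalDegree_le
    refine h2.trans ((wdeg_le hdm (w b)).trans ?_)
    exact Nat.pow_le_pow_right hdm1 (hw b)) (fun b i => τ (α b i)) hα1 hαL (by
    intro b m
    rw [hit]
    have h3 := det_map τ (P b) ((pmap (P b))^[m] (α b))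
    have h4 := hJ b m
    rw [h3] at h4
    exact h4)
    (MvPolynomial.map τ G)
    ((support_map_subset _ _).trans (support_subset_expSet hGδ)) r
  have hiff : ∀ m, eval (fun q : Fin k × Fin 2 =>
      (pmap (fun i => MvPolynomial.map τ (P q.1 i)))^[m] (fun i => τ (α q.1 i)) q.2) (MvPolynomial.map τ G) = 0 ↔
      eval (fun q : Fin k × Fin 2 => (pmap (P q.1))^[m] (α q.1) q.2) G = 0 := by
    intro m
    simp only [hit]
    have h4 : eval (fun q : Fin k × Fin 2 => τ ((pmap (P q.1))^[m] (α q.1) q.2))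
        (MvPolynomial.map τ G) =
        τ (eval (fun q : Fin k × Fin 2 => (pmap (P q.1))^[m] (α q.1) q.2) G) := by
      rw [eval_map, eval₂_comp]
      rfl
    rw [h4, map_eq_zero]
  simp only [hiff] at h1
  exact h1

/-- powers of an admissible word act on an orbit without critical residues -/
theorem orb_word {p : ℕ} [Fact p.Prime] (c : Idx d → ℂ) (τ : ℂ →+* PadicAlgCl p) (Ad : Fin s → Prop)
    (x : Fin 2 → ℂ) (H : ∀ u : List (Fin s), (∀ a ∈ u, Ad a) →
      ∀ a, Ad a → ‖τ (jac (form c a) (ev (word c u) x)).det‖ = 1)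
    (w : List (Fin s)) (hw : ∀ a ∈ w, Ad a) (m : ℕ) :
    ‖τ (jac (word c w) ((pmap (word c w))^[m] x)).det‖ = 1 := by
  have key : ∀ (v u : List (Fin s)), (∀ a ∈ v, Ad a) → (∀ a ∈ u, Ad a) →
      ‖τ (jac (word c v) (ev (word c u) x)).det‖ = 1 := by
    intro v
    induction v with
    | nil =>
      intro u _ _
      rw [det_word_nil, map_one, norm_one]
    | cons a v ih =>
      intro u hv hu
      have hv' : ∀ b ∈ v, Ad b := fun b hb => hv b (List.mem_cons_of_mem _ hb)
      rw [det_word_cons, map_mul, norm_mul, ih u hv' hu, mul_one, ← ev_word_append]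
      refine H (v ++ u) (fun b hb => ?_) a (hv a List.mem_cons_self)
      rcases List.mem_append.1 hb with h | h
      · exact hv' b h
      · exact hu b h
  have hit : ∃ u : List (Fin s), (∀ a ∈ u, Ad a) ∧ (pmap (word c w))^[m] x = ev (word c u) x := by
    induction m with
    | zero => exact ⟨[], fun a ha => absurd ha List.not_mem_nil, (ev_word_nil c x).symm⟩
    | succ m ih =>
      obtain ⟨u, hu, h⟩ := ih
      refine ⟨w ++ u, fun a ha => ?_, ?_⟩
      · rcases List.mem_append.1 ha with h | h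
        · exact hw a h
        · exact hu a h
      · rw [Function.iterate_succ_apply', h, ev_word_append]
        rfl
  obtain ⟨u, hu, h⟩ := hit
  rw [h]
  exact key w u hw hu

/-- the word of a periodic coordinate -/
def wp {k : ℕ} (A : Fin k → Fin s) (π : Fin k → Fin k) (b : Fin k) : List (Fin s) :=
  if π^[k.factorial] b = b then wd52 A π k.factorial b else []

/-- from split maps to all maps -/
theorem dichD4 (c : Idx d → ℂ) (dm : ℕ) (hdm : ∀ a, d a ≤ dm) (hdm1 : 1 ≤ dm) (k W Q B δ : ℕ)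
    (α : Fin k → Fin 2 → ℂ) (A : Fin k → Fin s) (π : Fin k → Fin k)
    (h : Dich k W Q B (δ * dm ^ (2 * k.factorial)) (fun m b => (pmap (word c (wp A π b)))^[m] (α b))) :
    Dich k (k.factorial * (1 + W)) (k.factorial * Q) B δ (fun m => (sysMap c A π)^[m] α) := by
  intro G hG hGδ r
  set L := k.factorial with hL
  have hL0 : 0 < L := Nat.factorial_pos k
  -- the remainder and the quotient of `r`
  obtain ⟨r₁, r₂, hr₁, hr⟩ : ∃ r₁ r₂, r₁ < L ∧ r = L * r₂ + r₁ :=
    ⟨r % L, r / L, Nat.mod_lt _ hL0, (Nat.div_add_mod r L).symm⟩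
  set H : Fin k → Fin 2 → MvPolynomial (Fin 2) ℂ := fun b => word c (wd52 A π (L + r₁) b) with hH
  set e : Fin k → Fin k := fun b => π^[L + r₁] b with he
  choose D hD hDh using fun b => word_hom52 c dm hdm (wd52 A π (L + r₁) b)
  have hdeg : ∀ b i, (H b i).totalDegree ≤ dm ^ (2 * L) := by
    intro b i
    refine ((hDh b i).totalDegree_le).trans ((hD b).trans ?_)
    rw [wd_length52]
    exact Nat.pow_le_pow_right hdm1 (by omega)
  have hG' := sub_multi52 H e D hDh G hG
  have hd' := sub_deg52 H e _ hdeg G δ hGδ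
  have hfix : ∀ b, π^[L] (e b) = e b := by
    intro b
    have h1 : e b = π^[L] (π^[r₁] b) := by rw [he, ← Function.iterate_add_apply]
    rw [h1]
    exact idem52 π _
  have key : ∀ M, MvPolynomial.eval (fun q => (sysMap c A π)^[L * (M + 1) + r₁] α q.1 q.2) G =
      MvPolynomial.eval (fun q : Fin k × Fin 2 => (pmap (word c (wp A π q.1)))^[M] (α q.1) q.2) (sub52 H e G) := by
    intro M
    rw [eval_sub52 H e G (fun b => (pmap (word c (wp A π b)))^[M] (α b))]
    congr 2
    funext q
    have e1 : L * (M + 1) + r₁ = (L + r₁) + L * M := by ring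
    have e2 : wp A π (e q.1) = wd52 A π L (e q.1) := by
      rw [wp, if_pos (hfix q.1)]
    rw [e1, Function.iterate_add_apply, iter52]
    show _ = pmap (word c (wd52 A π (L + r₁) q.1)) ((pmap (word c (wp A π (e q.1))))^[M] (α (e q.1))) q.2
    rw [e2, ← iter_fix52 c A π α L M (e q.1) (hfix q.1)]
  have h1 := h (sub52 H e G) hG' hd' r₂
  have e2 : ∀ m, L * (1 + W) + r + L * Q * m = L * ((W + r₂ + Q * m) + 1) + r₁ := by
    intro m
    rw [hr]
    ring
  simp only [e2, key]
  exact h1

theorem mem_wd52 {k : ℕ} (A : Fin k → Fin s) (π : Fin k → Fin k) (n : ℕ) (b : Fin k) (a : Fin s)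
    (ha : a ∈ wd52 A π n b) : ∃ j < n, a = A (π^[j] b) := by
  induction n generalizing b with
  | zero => exact absurd ha List.not_mem_nil
  | succ n ih =>
    rw [wd52, List.mem_cons] at ha
    rcases ha with rfl | ha
    · exact ⟨0, Nat.succ_pos _, rfl⟩
    · obtain ⟨j, hj, rfl⟩ := ih _ ha
      exact ⟨j + 1, Nat.succ_lt_succ hj, rfl⟩

theorem adm_wp {k : ℕ} (π : Fin k → Fin k) (b a : Fin k) (ha : a ∈ wp id π b) : Adm π a b := by
  unfold wp at ha
  split_ifs at ha with h
  · obtain ⟨j, hj, rfl⟩ := mem_wd52 id π _ b a ha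
    refine ⟨⟨k.factorial - j - 1, ?_⟩, j, rfl⟩
    have h1 : k.factorial - j - 1 + 1 + j = k.factorial := by omega
    rw [id, ← Function.iterate_add_apply, h1, h]
  · exact absurd ha List.not_mem_nil

theorem length_wp {k : ℕ} (A : Fin k → Fin s) (π : Fin k → Fin k) (b : Fin k) :
    (wp A π b).length ≤ k.factorial := by
  unfold wp
  split_ifs
  · rw [wd_length52]
  · exact Nat.zero_le _

/-- **Block E**: the dichotomy along an orbit without critical residues -/
theorem eng {k : ℕ} (d : Fin k → ℕ) (c : Idx d → ℂ) (p : ℕ) [Fact p.Prime] (hp3 : 3 ≤ p)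
    (τ : ℂ →+* PadicAlgCl p) (hc : ∀ q, ‖τ (c q)‖ ≤ 1) (π : Fin k → Fin k) (α : Fin k → Fin 2 → ℂ)
    (hα1 : ∀ b i, ‖τ (α b i)‖ ≤ 1)
    (H : ∀ b (u : List (Fin k)), (∀ a ∈ u, Adm π a b) →
      ∀ a, Adm π a b → ‖τ (jac (form c a) (ev (word c u) (α b))).det‖ = 1)
    (V : Set (MvPolynomial (Fin k × Fin 2) ℂ)) (hV : ∀ G ∈ V, MultiHom G) : ∃ S : Finset (ℕ × ℕ),
      {m : ℕ | ∀ G ∈ V, eval (fun q => (sysMap c id π)^[m] α q.1 q.2) G = 0} =
        {m | ∃ q ∈ S, ∃ j, m = q.1 + q.2 * j} := by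
  classical
  let dm : ℕ := (∑ a, d a) + 1
  have hdm : ∀ a, d a ≤ dm := fun a =>
    (Finset.single_le_sum (fun i _ => Nat.zero_le (d i)) (Finset.mem_univ a)).trans (Nat.le_succ _)
  have hdm1 : 1 ≤ dm := Nat.le_add_left 1 _
  let S₀ : Set (PadicAlgCl p) := (Set.range fun q : Fin k × Fin 2 => τ (α q.1 q.2)) ∪
    Set.range fun q => τ (c q)
  have hS₀ : S₀.Finite := (Set.finite_range _).union (Set.finite_range _)
  let L : IntermediateField ℚ_[p] (PadicAlgCl p) := IntermediateField.adjoin ℚ_[p] S₀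
  have hLfin : FiniteDimensional ℚ_[p] L := by
    have : Finite S₀ := hS₀.to_subtype
    exact IntermediateField.finiteDimensional_adjoin fun x _ =>
      (Algebra.IsAlgebraic.isAlgebraic x).isIntegral
  have hLfin' : FiniteDimensional ℚ_[p] L.toSubalgebra := hLfin
  have hαL : ∀ b i, τ (α b i) ∈ L.toSubalgebra := fun b i =>
    IntermediateField.subset_adjoin _ _ (Or.inl ⟨(b, i), rfl⟩)
  have hcL : ∀ q, τ (c q) ∈ L.toSubalgebra := fun q =>
    IntermediateField.subset_adjoin _ _ (Or.inr ⟨q, rfl⟩)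
  set D := Module.finrank ℚ_[p] L.toSubalgebra with hD
  have hd1 : ∀ G : MvPolynomial (Fin k × Fin 2) ℂ, MultiHom G → ∀ r,
      {m | eval (fun q => (sysMap c id π)^[k.factorial * (1 + bd (k * 2) p D) + r +
        k.factorial * ((bd (k * 2) p D).factorial * (bd (k * 2) p D).factorial) * m] α q.1 q.2)
          G = 0}.Finite ∨
      ∀ m, eval (fun q => (sysMap c id π)^[k.factorial * (1 + bd (k * 2) p D) + r +
        k.factorial * ((bd (k * 2) p D).factorial * (bd (k * 2) p D).factorial) * m] α q.1 q.2)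
          G = 0 := by
    intro G hGm r
    obtain ⟨B, hB⟩ := dichD1 (p := p) hp3 d k k.factorial D (G.totalDegree * dm ^ (2 * k.factorial))
    have h1 := hB L.toSubalgebra le_rfl c τ hc hcL (wp id π) (length_wp id π) α hα1 hαL (fun b m =>
      orb_word c τ (fun a => Adm π a b) (α b) (H b) (wp id π b) (fun a ha => adm_wp π b a ha) m)
    rcases dichD4 c dm hdm hdm1 k _ _ B G.totalDegree α id π h1 G hGm le_rfl r with h2 | h2
    · exact Or.inl (Set.finite_of_encard_le_coe h2)
    · exact Or.inr h2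
  refine Pool.Agent.Helper26.FD.ap_of_dich _ (Q := k.factorial * ((bd (k * 2) p D).factorial *
    (bd (k * 2) p D).factorial)) (Nat.mul_pos (Nat.factorial_pos _) (Nat.mul_pos (Nat.factorial_pos _)
    (Nat.factorial_pos _))) (n₀ := k.factorial * (1 + bd (k * 2) p D)) fun r => ?_
  by_cases hall : ∀ G ∈ V, ∀ m, eval (fun q => (sysMap c id π)^[k.factorial *
      (1 + bd (k * 2) p D) + r + k.factorial * ((bd (k * 2) p D).factorial *
      (bd (k * 2) p D).factorial) * m] α q.1 q.2) G = 0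
  · right
    intro m G hGV
    exact hall G hGV m
  · left
    push Not at hall
    obtain ⟨G, hGV, m, hm⟩ := hall
    rcases hd1 G (hV G hGV) r with h2 | h2
    · exact h2.subset fun m' hm' => hm' G hGV
    · exact absurd (h2 m) hm

end

end Pool.Agent.Helper26.OB
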