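import Mathlib
import Pool.Agent.Helper26.OB.Eng
import Pool.Agent.Helper26.OB.Res

/-!
# OB: the criterion (block M)
-/

set_option autoImplicit false

namespace Pool.Agent.Helper26.OB

open MvPolynomial Pool.Agent.Helper86.DML Pool.Agent.Helper61.TH Pool.Agent.Helper87.FK
open Pool.Agent.Helper26.FU (MultiHom eval_multi)

noncomputable section

/-- the normalised vector of a point -/
def nm (x : Fin 2 → ℂ) : Fin 2 → ℂ := open Classical in if x 1 = 0 then ![1, 0] else ![x 0 / x 1, 1]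

theorem nm_one {x : Fin 2 → ℂ} (h : x 1 ≠ 0) : nm x 1 = 1 ∧ nm x 0 = x 0 / x 1 := by
  unfold nm
  rw [if_neg h]
  exact ⟨rfl, rfl⟩

theorem nm_inf {x : Fin 2 → ℂ} (h : x 1 = 0) : nm x 1 = 0 ∧ nm x 0 = 1 := by
  unfold nm
  rw [if_pos h]
  exact ⟨rfl, rfl⟩

theorem pr_nm (x : Fin 2 → ℂ) : pr (nm x) = pr x := by
  by_cases h : x 1 = 0
  · rw [pr_inf x h, pr_inf _ (nm_inf h).1]
  · rw [pr_one _ (nm_one h).1, (nm_one h).2]
    unfold pr
    rw [if_neg h]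

theorem exists_scale (x : Fin 2 → ℂ) (hx : x ≠ 0) : ∃ l : ℂ, l ≠ 0 ∧ x = fun i => l * nm x i := by
  by_cases h : x 1 = 0
  · refine ⟨x 0, fun h0 => hx ?_, ?_⟩
    · funext i
      fin_cases i
      · exact h0
      · exact h
    · funext i
      fin_cases i
      · change x 0 = x 0 * nm x 0
        rw [(nm_inf h).2, mul_one]
      · change x 1 = x 0 * nm x 1
        rw [(nm_inf h).1, mul_zero, h]
  · refine ⟨x 1, h, ?_⟩
    funext i
    fin_cases i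
    · change x 0 = x 1 * nm x 0
      rw [(nm_one h).2, mul_div_cancel₀ _ h]
    · change x 1 = x 1 * nm x 1
      rw [(nm_one h).1, mul_one]

/-- scaling of the point -/
theorem sysMap_scale_pt {s : ℕ} {d : Fin s → ℕ} (c : Idx d → ℂ) {k : ℕ} (A : Fin k → Fin s) (π : Fin k → Fin k)
    (α : Fin k → Fin 2 → ℂ) (l : Fin k → ℂ) (hl : ∀ b, l b ≠ 0) (m : ℕ) : ∃ l' : Fin k → ℂ, (∀ b, l' b ≠ 0) ∧
      (sysMap c A π)^[m] (fun b i => l b * α b i) = fun b i => l' b * (sysMap c A π)^[m] α b i := by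
  induction m with
  | zero => exact ⟨l, hl, rfl⟩
  | succ m ih =>
    obtain ⟨l', hl', h⟩ := ih
    refine ⟨fun b => l' (π b) ^ d (A b), fun b => pow_ne_zero _ (hl' _), ?_⟩
    rw [Function.iterate_succ_apply', Function.iterate_succ_apply', h]
    funext b i
    simp only [sysMap]
    rw [Finset.mul_sum]
    refine Finset.sum_congr rfl fun j _ => ?_
    have h1 : l' (π b) ^ d (A b) = l' (π b) ^ (j : ℕ) * l' (π b) ^ (d (A b) - j) := by
      rw [← pow_add]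
      congr 1
      have := j.2
      omega
    rw [mul_pow, mul_pow, h1]
    ring

theorem sys_scale_pt {s : ℕ} {d : Fin s → ℕ} (c : Idx d → ℂ) {k : ℕ} (A : Fin k → Fin s) (π : Fin k → Fin k)
    (α : Fin k → Fin 2 → ℂ) (l : Fin k → ℂ) (hl : ∀ b, l b ≠ 0) (m : ℕ) (G : MvPolynomial (Fin k × Fin 2) ℂ)
    (hG : MultiHom G) :
    eval (fun q => (sysMap c A π)^[m] (fun b i => l b * α b i) q.1 q.2) G = 0 ↔
      eval (fun q => (sysMap c A π)^[m] α q.1 q.2) G = 0 := by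
  obtain ⟨g, hg⟩ := hG
  obtain ⟨l', hl', h⟩ := sysMap_scale_pt c A π α l hl m
  rw [h]
  rw [eval_multi hg l' fun b i => (sysMap c A π)^[m] α b i]
  constructor
  · intro h5
    exact (mul_eq_zero.1 h5).resolve_left (Finset.prod_ne_zero_iff.2 fun b _ => pow_ne_zero _ (hl' b))
  · intro h5
    rw [h5, mul_zero]

/-- algebraic numbers are periodic -/
theorem per_alg (σ : ℂ ≃+* ℂ) (z : ℂ) (hz : IsAlgebraic ℚ z) : ∃ n, 1 ≤ n ∧ σ^[n] z = z := by
  classical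
  obtain ⟨P, hP, h0⟩ := hz
  have hroot : ∀ n, σ^[n] z ∈ (P.map (algebraMap ℚ ℂ)).roots.toFinset := by
    intro n
    rw [Multiset.mem_toFinset, Polynomial.mem_roots (Polynomial.map_ne_zero hP), Polynomial.IsRoot.def,
      Polynomial.eval_map]
    induction n with
    | zero => exact h0
    | succ n ih =>
      rw [Function.iterate_succ_apply']
      have h1 := congrArg (σ : ℂ →+* ℂ) ih
      rw [map_zero, Polynomial.hom_eval₂] at h1
      have h2 : (σ : ℂ →+* ℂ).comp (algebraMap ℚ ℂ) = algebraMap ℚ ℂ := Subsingleton.elim _ _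
      rw [h2] at h1
      exact h1
  obtain ⟨i, j, hij, h⟩ : ∃ i j : ℕ, i < j ∧ σ^[i] z = σ^[j] z := by
    have h1 : ¬ Function.Injective fun n : ℕ => σ^[n] z := by
      intro hinj
      have h2 : Set.Finite (Set.range fun n : ℕ => σ^[n] z) :=
        (Finset.finite_toSet (P.map (algebraMap ℚ ℂ)).roots.toFinset).subset (by
          rintro _ ⟨n, rfl⟩
          exact hroot n)
      exact Set.infinite_range_of_injective hinj h2
    unfold Function.Injective at h1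
    push Not at h1
    obtain ⟨i, j, h2, h3⟩ := h1
    rcases lt_or_gt_of_ne h3 with h4 | h4
    · exact ⟨i, j, h4, h2⟩
    · exact ⟨j, i, h4, h2.symm⟩
  obtain ⟨n, rfl⟩ : ∃ n, j = i + n := ⟨j - i, by omega⟩
  refine ⟨n, by omega, ?_⟩
  rw [Function.iterate_add_apply] at h
  exact ((σ.injective.iterate i) h).symm

theorem iterate_mul_fix {X : Type*} (f : X → X) (x : X) (n m : ℕ) (h : f^[n] x = x) : f^[n * m] x = x := by
  induction m with
  | zero => rfl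
  | succ m ih => rw [Nat.mul_succ, Function.iterate_add_apply, h, ih]

/-- a common period -/
theorem per_fin (σ : ℂ ≃+* ℂ) (Z : Finset ℂ) (hZ : ∀ z ∈ Z, IsAlgebraic ℚ z) :
    ∃ n, 1 ≤ n ∧ ∀ z ∈ Z, σ^[n] z = z := by
  classical
  induction Z using Finset.induction_on with
  | empty => exact ⟨1, le_rfl, fun z hz => absurd hz (Finset.notMem_empty z)⟩
  | insert w Z hw ih =>
    obtain ⟨n, hn, h⟩ := ih fun z hz => hZ z (Finset.mem_insert_of_mem hz)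
    obtain ⟨m, hm, h'⟩ := per_alg σ w (hZ w (Finset.mem_insert_self _ _))
    refine ⟨n * m, Nat.mul_pos hn hm, fun z hz => ?_⟩
    rcases Finset.mem_insert.1 hz with rfl | hz
    · rw [mul_comm]
      exact iterate_mul_fix _ _ _ _ h'
    · exact iterate_mul_fix _ _ _ _ (h z hz)

/-- orbit lengths of algebraic points are positive -/
theorem ol_pos (σ : ℂ ≃+* ℂ) (y : Fin 2 → ℂ) (hy : (y 1 = 1 ∧ IsAlgebraic ℚ (y 0)) ∨ y 1 = 0) :
    1 ≤ ol (σ : ℂ →+* ℂ) y := by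
  rcases hy with ⟨h1, h2⟩ | h
  · obtain ⟨n, hn, h⟩ := per_alg σ _ h2
    unfold ol
    rw [pr_one y h1]
    refine Function.IsPeriodicPt.minimalPeriod_pos (n := n) hn ?_
    unfold Function.IsPeriodicPt Function.IsFixedPt
    rw [option_iterate]
    exact congrArg some h
  · rw [ol_inf _ y h]

/-- **Block M**: the criterion -/
theorem main_of
    (resdeg : ∀ {κ : Type} [Field κ] [IsAlgClosed κ] (p : ℕ) [Fact p.Prime] [CharP κ p] {s : ℕ} {d : Fin s → ℕ}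
      (D : ℕ), (∀ a, 1 ≤ d a) → (∀ a, d a ≤ D) → ∀ c : Idx d → κ, (∀ q, c q ^ p = c q) →
      (∀ a (x : Fin 2 → κ), x ≠ 0 → ev (form c a) x ≠ 0) → ∀ (w : List (Fin s)) (x : Fin 2 → κ), x ≠ 0 →
      ∃ e, 1 ≤ e ∧ Smooth D e ∧ ol (frobenius κ p) x = e * ol (frobenius κ p) (ev (word c w) x))
    (jac_det : ∀ {R : Type} [CommRing R] {s : ℕ} {d : Fin s → ℕ} (c : Idx d → R) (a : Fin s) (x : Fin 2 → R),
      (jac (form c a) x).det = (d a : R) * wrh c a x)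
    (red : ∀ {s : ℕ} {d : Fin s → ℕ}, (∀ a, 1 ≤ d a) → ∀ c : Idx d → ℂ, (∀ q, IsAlgebraic ℚ (c q)) →
      HasDeg c → ∃ Z : Finset ℂ, (∀ z ∈ Z, IsAlgebraic ℚ z) ∧ (∀ q, c q ∈ Z) ∧
      ∀ (p : ℕ) [Fact p.Prime] (τ : ℂ →+* PadicAlgCl p), Un τ Z →
        (∀ a (x : Fin 2 → kk p), x ≠ 0 → ev (form (fun q => rd τ (c q)) a) x ≠ 0) ∧
        ∀ a (x : Fin 2 → kk p), x ≠ 0 → wrh (fun q => rd τ (c q)) a x = 0 →
          ∃ y : Fin 2 → ℂ, (∀ i, y i ∈ Z) ∧ (y 1 = 1 ∨ (y 0 = 1 ∧ y 1 = 0)) ∧ wrh c a y = 0 ∧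
            pr x = pr fun i => rd τ (y i))
    (frob : ∀ (σ : ℂ ≃+* ℂ) (Z : Finset ℂ), (∀ z ∈ Z, IsAlgebraic ℚ z) → ∀ N₀ : ℕ,
      ∃ (p : ℕ) (_ : Fact p.Prime) (τ : ℂ ≃+* PadicAlgCl p), N₀ < p ∧ Un (τ : ℂ →+* PadicAlgCl p) Z ∧
      ∀ z ∈ Z, ∀ m : ℕ, ‖(τ z) ^ p ^ m - τ z‖ < 1 ↔ σ^[m] z = z)
    (trans : ∀ (Y : Finset ℂ), (∀ y ∈ Y, Transcendental ℚ y) → ∃ Z : Finset ℂ, (∀ z ∈ Z, IsAlgebraic ℚ z) ∧
      ∀ (p : ℕ) [Fact p.Prime] (τ₀ : ℂ →+* PadicAlgCl p) (n : ℕ), 1 ≤ n →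
      (∀ z ∈ Z, ‖τ₀ z‖ ≤ 1 ∧ ‖(τ₀ z) ^ p ^ n - τ₀ z‖ < 1) → ∀ l : ℕ, l.Prime →
      ∃ τ : ℂ →+* PadicAlgCl p, (∀ z, IsAlgebraic ℚ z → τ z = τ₀ z) ∧
        ∀ y ∈ Y, ‖τ y‖ ≤ 1 → ∀ m : ℕ, 1 ≤ m → ‖(τ y) ^ p ^ m - τ y‖ < 1 → l ∣ m)
    (algClosed : ∀ (p : ℕ) [Fact p.Prime], IsAlgClosed (kk p))
    {k : ℕ} (d : Fin k → ℕ) (D : ℕ) (hd : ∀ a, 1 ≤ d a ∧ d a ≤ D) (c : Idx d → ℂ)
    (hc : ∀ q, IsAlgebraic ℚ (c q)) (hdeg : HasDeg c) (π : Fin k → Fin k) (α : Fin k → Fin 2 → ℂ)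
    (hα : ∀ b, α b ≠ 0) (σ : ℂ ≃+* ℂ) (hσ : ∀ q, σ (c q) = c q)
    (h : ∀ a b, Adm π a b → IsAlgebraic ℚ (α b 0 / α b 1) → ∀ x : Fin 2 → ℂ, x ≠ 0 → wrh c a x = 0 →
      ∀ e, ol (σ : ℂ →+* ℂ) (α b) = e * ol (σ : ℂ →+* ℂ) x → ∃ r, r.Prime ∧ r ∣ e ∧ D < r)
    (V : Set (MvPolynomial (Fin k × Fin 2) ℂ)) (hV : ∀ G ∈ V, MultiHom G) : ∃ S : Finset (ℕ × ℕ),
      {m : ℕ | ∀ G ∈ V, eval (fun q => (sysMap c id π)^[m] α q.1 q.2) G = 0} =
        {m | ∃ q ∈ S, ∃ j, m = q.1 + q.2 * j} := by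
  classical
  -- the finite sets
  obtain ⟨Z₂, hZ₂, hcZ, hred⟩ := red (fun a => (hd a).1) c hc hdeg
  let zz : Fin k → ℂ := fun b => α b 0 / α b 1
  let Y : Finset ℂ := (Finset.univ.filter fun b => ¬ IsAlgebraic ℚ (zz b)).image zz ∪
    (Finset.univ.filter fun b => ¬ IsAlgebraic ℚ (zz b)).image fun b => (zz b)⁻¹
  have hY : ∀ y ∈ Y, Transcendental ℚ y := by
    intro y hy
    rcases Finset.mem_union.1 hy with hy | hy
    · obtain ⟨b, hb, rfl⟩ := Finset.mem_image.1 hy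
      exact (Finset.mem_filter.1 hb).2
    · obtain ⟨b, hb, rfl⟩ := Finset.mem_image.1 hy
      intro h1
      apply (Finset.mem_filter.1 hb).2
      have h2 := h1.inv
      rwa [inv_inv] at h2
  obtain ⟨ZT, hZT, htr⟩ := trans Y hY
  obtain ⟨n, hn, hper⟩ := per_fin σ ZT hZT
  let Z : Finset ℂ := Z₂ ∪ ZT ∪ (Finset.univ.filter fun b => IsAlgebraic ℚ (zz b)).image zz
  have hZ : ∀ z ∈ Z, IsAlgebraic ℚ z := by
    intro z hz
    rcases Finset.mem_union.1 hz with hz | hz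
    · rcases Finset.mem_union.1 hz with hz | hz
      · exact hZ₂ z hz
      · exact hZT z hz
    · obtain ⟨b, hb, rfl⟩ := Finset.mem_image.1 hz
      exact (Finset.mem_filter.1 hb).2
  have hZ₂Z : ∀ z ∈ Z₂, z ∈ Z := fun z hz => Finset.mem_union_left _ (Finset.mem_union_left _ hz)
  have hZTZ : ∀ z ∈ ZT, z ∈ Z := fun z hz => Finset.mem_union_left _ (Finset.mem_union_right _ hz)
  have hzzZ : ∀ b, IsAlgebraic ℚ (zz b) → zz b ∈ Z := fun b hb => Finset.mem_union_right _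
    (Finset.mem_image.2 ⟨b, Finset.mem_filter.2 ⟨Finset.mem_univ _, hb⟩, rfl⟩)
  obtain ⟨p, hp, τ₀, hpN, hUn, hfr⟩ := frob σ Z hZ (max D 3)
  have hp3 : 3 ≤ p := (lt_of_le_of_lt (le_max_right D 3) hpN).le
  have hpD : D < p := lt_of_le_of_lt (le_max_left D 3) hpN
  -- the prime number `l`
  let Yc : Finset (Fin 2 → ℂ) := Fintype.piFinset fun _ => Z
  obtain ⟨l, hlN, hl⟩ := Nat.exists_infinite_primes (D + 1 + ∑ y ∈ Yc, ol (σ : ℂ →+* ℂ) y + 1)
  have hlD : D < l := by omega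
  have hly : ∀ y : Fin 2 → ℂ, (∀ i, y i ∈ Z) → ol (σ : ℂ →+* ℂ) y < l := by
    intro y hy
    have h1 : y ∈ Yc := Fintype.mem_piFinset.2 hy
    have h2 := Finset.single_le_sum (f := fun y => ol (σ : ℂ →+* ℂ) y) (fun _ _ => Nat.zero_le _) h1
    have h3 : ol (σ : ℂ →+* ℂ) y ≤ ∑ y ∈ Yc, ol (σ : ℂ →+* ℂ) y := h2
    omega
  obtain ⟨τ, hτ, hτY⟩ := htr p (τ₀ : ℂ →+* PadicAlgCl p) n hn (fun z hz =>
    ⟨(hUn z (hZTZ z hz)).1, (hfr z (hZTZ z hz) n).2 (hper z hz)⟩) l hl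
  have hτZ : ∀ z ∈ Z, τ z = τ₀ z := fun z hz => hτ z (hZ z hz)
  have hUnτ : Un τ Z₂ := by
    intro z hz
    rw [hτZ z (hZ₂Z z hz)]
    exact hUn z (hZ₂Z z hz)
  obtain ⟨hgood, hcrit⟩ := hred p τ hUnτ
  have hcτ : ∀ q, ‖τ (c q)‖ ≤ 1 := fun q => (hUnτ _ (hcZ q)).1
  have hfrτ : ∀ z ∈ Z, ∀ m : ℕ, ‖(τ z) ^ p ^ m - τ z‖ < 1 ↔ σ^[m] z = z := by
    intro z hz m
    rw [hτZ z hz]
    exact hfr z hz m
  -- the normalised point
  let β : Fin k → Fin 2 → ℂ := fun b => nm (α b)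
  have htr1 : ∀ b, ¬ IsAlgebraic ℚ (zz b) → ‖τ (zz b)‖ ≤ 1 := by
    intro b hb
    by_contra hcon
    push Not at hcon
    have h0 : (zz b)⁻¹ ∈ Y := Finset.mem_union_right _
      (Finset.mem_image.2 ⟨b, Finset.mem_filter.2 ⟨Finset.mem_univ _, hb⟩, rfl⟩)
    have h1 : ‖τ (zz b)⁻¹‖ < 1 := by
      rw [map_inv₀, norm_inv]
      exact inv_lt_one_of_one_lt₀ hcon
    have h2 := hτY _ h0 h1.le 1 le_rfl (by
      have h3 : ‖(τ (zz b)⁻¹) ^ p ^ 1‖ < 1 := by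
        rw [norm_pow]
        exact pow_lt_one₀ (norm_nonneg _) h1 (by rw [pow_one]; exact hp.out.ne_zero)
      rw [sub_eq_add_neg]
      refine lt_of_le_of_lt (PadicAlgCl.isNonarchimedean p _ _) (max_lt h3 ?_)
      rw [norm_neg]
      exact h1)
    exact hl.one_lt.ne' (Nat.dvd_one.1 h2)
  have hzz1 : ∀ b, ‖τ (zz b)‖ ≤ 1 := by
    intro b
    by_cases hb : IsAlgebraic ℚ (zz b)
    · rw [hτZ _ (hzzZ b hb)]
      exact (hUn _ (hzzZ b hb)).1
    · exact htr1 b hb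
  have hβ1 : ∀ b i, ‖τ (β b i)‖ ≤ 1 := by
    intro b i
    by_cases h1 : α b 1 = 0
    · fin_cases i
      · change ‖τ (nm (α b) 0)‖ ≤ 1
        rw [(nm_inf h1).2, map_one, norm_one]
      · change ‖τ (nm (α b) 1)‖ ≤ 1
        rw [(nm_inf h1).1, map_zero, norm_zero]
        exact zero_le_one
    · fin_cases i
      · change ‖τ (nm (α b) 0)‖ ≤ 1
        rw [(nm_one h1).2]
        exact hzz1 b
      · change ‖τ (nm (α b) 1)‖ ≤ 1
        rw [(nm_one h1).1, map_one, norm_one]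
  have hβ0 : ∀ b, (fun i => rd τ (β b i)) ≠ 0 := by
    intro b h0
    by_cases h1 : α b 1 = 0
    · have h2 := congrFun h0 0
      change rd τ (nm (α b) 0) = 0 at h2
      rw [(nm_inf h1).2, rd_one] at h2
      exact one_ne_zero h2
    · have h2 := congrFun h0 1
      change rd τ (nm (α b) 1) = 0 at h2
      rw [(nm_one h1).1, rd_one] at h2
      exact one_ne_zero h2
  -- the orbit lengths of the residues of the point
  have holβ : ∀ b, IsAlgebraic ℚ (zz b) →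
      ol (frobenius (kk p) p) (fun i => rd τ (β b i)) = ol (σ : ℂ →+* ℂ) (α b) := by
    intro b hb
    have h1 : ol (σ : ℂ →+* ℂ) (α b) = ol (σ : ℂ →+* ℂ) (β b) := by
      unfold ol
      rw [show pr (β b) = pr (α b) from pr_nm (α b)]
    rw [h1]
    refine ol_rd (σ : ℂ →+* ℂ) τ (β b) ?_
    by_cases h2 : α b 1 = 0
    · exact Or.inr (nm_inf h2).1
    · left
      refine ⟨(nm_one h2).1, hβ1 b 0, ?_⟩
      change ∀ m : ℕ, ‖(τ (nm (α b) 0)) ^ p ^ m - τ (nm (α b) 0)‖ < 1 ↔ σ^[m] (nm (α b) 0) = nm (α b) 0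
      rw [(nm_one h2).2]
      exact hfrτ _ (hzzZ b hb)
  have holT : ∀ b, ¬ IsAlgebraic ℚ (zz b) → l ∣ ol (frobenius (kk p) p) (fun i => rd τ (β b i)) := by
    intro b hb
    have h2 : α b 1 ≠ 0 := by
      intro h3
      apply hb
      change IsAlgebraic ℚ (α b 0 / α b 1)
      rw [h3, div_zero]
      exact isAlgebraic_zero
    set m := ol (frobenius (kk p) p) (fun i => rd τ (β b i)) with hm
    rcases Nat.eq_zero_or_pos m with h0 | h0
    · rw [h0]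
      exact dvd_zero l
    · have h3 : zz b ∈ Y := Finset.mem_union_left _
        (Finset.mem_image.2 ⟨b, Finset.mem_filter.2 ⟨Finset.mem_univ _, hb⟩, rfl⟩)
      refine hτY _ h3 (hzz1 b) m h0 ?_
      -- periodicity of the residue
      have h4 : (Option.map (frobenius (kk p) p))^[m] (pr fun i => rd τ (β b i)) =
          pr fun i => rd τ (β b i) := Function.isPeriodicPt_minimalPeriod _ _
      have h5 : pr (fun i => rd τ (β b i)) = some (rd τ (zz b)) := by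
        rw [pr_one _ (by
          change rd τ (nm (α b) 1) = 1
          rw [(nm_one h2).1, rd_one])]
        change some (rd τ (nm (α b) 0)) = _
        rw [(nm_one h2).2]
      rw [h5, option_iterate, Option.some_inj, iterate_frobenius] at h4
      let z' : Ot τ := ⟨zz b, (mem_Ot τ).2 (hzz1 b)⟩
      have h6 : rh τ (z' ^ p ^ m - z') = 0 := by
        rw [map_sub, map_pow, ← rd_coe, sub_eq_zero]
        exact h4
      rw [rh_eq_zero] at h6
      have h7 : τ ((z' ^ p ^ m - z' : Ot τ) : ℂ) = (τ (zz b)) ^ p ^ m - τ (zz b) := by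
        push_cast
        rw [map_sub, map_pow]
      rw [h7] at h6
      exact h6
  -- the coefficients modulo `p`
  have hcfr : ∀ q, rd τ (c q) ^ p = rd τ (c q) := by
    intro q
    have h1 := (hfrτ _ (hZ₂Z _ (hcZ q)) 1).2 (hσ q)
    let z' : Ot τ := ⟨c q, (mem_Ot τ).2 (hcτ q)⟩
    have h2 : rh τ (z' ^ p ^ 1 - z') = 0 := by
      rw [rh_eq_zero]
      have h7 : τ ((z' ^ p ^ 1 - z' : Ot τ) : ℂ) = (τ (c q)) ^ p ^ 1 - τ (c q) := by
        push_cast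
        rw [map_sub, map_pow]
      rw [h7]
      exact h1
    rw [map_sub, map_pow, ← rd_coe, sub_eq_zero, pow_one] at h2
    exact h2
  have halg : IsAlgClosed (kk p) := algClosed p
  have hword0 : ∀ (u : List (Fin k)) (x : Fin 2 → kk p), x ≠ 0 →
      ev (word (fun q => rd τ (c q)) u) x ≠ 0 := by
    intro u x hx
    induction u with
    | nil => rwa [ev_word_nil]
    | cons a u ih =>
      rw [ev_word_cons]
      exact hgood a _ ih
  -- the scaling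
  choose ls hls hαβ using fun b => exists_scale (α b) (hα b)
  have hαβ' : α = fun b i => ls b * β b i := funext hαβ
  have hset : {m : ℕ | ∀ G ∈ V, eval (fun q => (sysMap c id π)^[m] α q.1 q.2) G = 0} =
      {m : ℕ | ∀ G ∈ V, eval (fun q => (sysMap c id π)^[m] β q.1 q.2) G = 0} := by
    ext m
    simp only [Set.mem_ofPred_eq]
    refine forall₂_congr fun G hG => ?_
    rw [hαβ']
    exact sys_scale_pt c id π β ls hls m G (hV G hG)
  rw [hset]
  refine eng d c p hp3 τ hcτ π β hβ1 ?_ V hV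
  intro b u hu a ha
  obtain ⟨hx1, hx2⟩ := rd_word τ c hcτ (β b) (hβ1 b) u
  obtain ⟨hj1, hj2⟩ := rd_jac τ c hcτ (ev (word c u) (β b)) hx1 a
  refine norm_of_rd_ne_zero τ hj1 ?_
  rw [hj2, hx2, jac_det]
  intro h0
  have hda : ((d a : ℕ) : kk p) ≠ 0 := by
    intro h1
    have h2 := (CharP.cast_eq_zero_iff (kk p) p (d a)).1 h1
    have h3 := Nat.le_of_dvd (hd a).1 h2
    have h4 := (hd a).2
    omega
  have hw0 := (mul_eq_zero.1 h0).resolve_left hda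
  set xb := ev (word (fun q => rd τ (c q)) u) (fun i => rd τ (β b i)) with hxb
  have hxb0 : xb ≠ 0 := hword0 u _ (hβ0 b)
  obtain ⟨y, hyZ, hy1, hyw, hpr⟩ := hcrit a xb hxb0 hw0
  have hyZ' : ∀ i, y i ∈ Z := fun i => hZ₂Z _ (hyZ i)
  have hyne : y ≠ 0 := by
    rintro rfl
    rcases hy1 with h1 | ⟨h1, -⟩
    · exact zero_ne_one h1
    · exact zero_ne_one h1
  have holy : ol (frobenius (kk p) p) xb = ol (σ : ℂ →+* ℂ) y := by
    have h1 : ol (frobenius (kk p) p) xb = ol (frobenius (kk p) p) (fun i => rd τ (y i)) := by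
      unfold ol
      rw [hpr]
    rw [h1]
    refine ol_rd (σ : ℂ →+* ℂ) τ y ?_
    rcases hy1 with h2 | ⟨-, h2⟩
    · left
      refine ⟨h2, ?_, hfrτ _ (hyZ' 0)⟩
      exact (hUnτ _ (hyZ 0)).1
    · exact Or.inr h2
  obtain ⟨e, he1, hesm, he⟩ := resdeg (κ := kk p) p D (fun a => (hd a).1) (fun a => (hd a).2)
    (fun q => rd τ (c q)) hcfr hgood u (fun i => rd τ (β b i)) (hβ0 b)
  rw [← hxb, holy] at he
  by_cases hb : IsAlgebraic ℚ (zz b)
  · rw [holβ b hb] at he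
    obtain ⟨r, hr, hre, hDr⟩ := h a b ha hb y hyne hyw e he
    exact absurd (hesm r hr hre) (not_le.2 hDr)
  · have h1 := holT b hb
    rw [he] at h1
    rcases (Nat.Prime.dvd_mul hl).1 h1 with h2 | h2
    · exact absurd (hesm l hl h2) (not_le.2 hlD)
    · have h3 : 1 ≤ ol (σ : ℂ →+* ℂ) y := by
        refine ol_pos σ y ?_
        rcases hy1 with h4 | ⟨-, h4⟩
        · exact Or.inl ⟨h4, hZ _ (hyZ' 0)⟩
        · exact Or.inr h4
      exact absurd (Nat.le_of_dvd h3 h2) (not_le.2 (hly y hyZ'))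

end

end Pool.Agent.Helper26.OB
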