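import Mathlib
import Pool.Agent.Helper26.OB.M

/-!
# OB: points with transcendental coordinates (block M')
-/

set_option autoImplicit false

namespace Pool.Agent.Helper26.OB

open MvPolynomial Pool.Agent.Helper86.DML Pool.Agent.Helper61.TH Pool.Agent.Helper87.FK
open Pool.Agent.Helper26.FU (MultiHom eval_multi)

noncomputable section

/-- a countable algebraically closed subfield which contains the coefficients and no number transcendental over `K` -/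
theorem exists_closed (K : Subfield ℂ) (S : Set ℂ) (hS : S.Countable) (hSK : S ⊆ K) : ∃ A : Subfield ℂ,
    (∀ z : ℂ, IsAlgebraic A z → z ∈ A) ∧ (A : Set ℂ).Countable ∧ S ⊆ A ∧
      ∀ z : ℂ, Transcendental K z → z ∉ A := by
  let K₀ : Subfield ℂ := Subfield.closure S
  have hK₀ : K₀ ≤ K := Subfield.closure_le.2 hSK
  have hK₀c : Countable K₀ := by
    rw [← Cardinal.mk_le_aleph0_iff]
    refine (Subfield.cardinalMk_closure_le_max S).trans ?_
    exact max_le (Cardinal.mk_le_aleph0_iff.2 hS.to_subtype) le_rfl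
  let B : IntermediateField K₀ ℂ := algebraicClosure K₀ ℂ
  refine ⟨B.toSubfield, ?_, ?_, ?_, ?_⟩
  · intro z hz
    have hz' : IsAlgebraic B z := hz
    have hB : Algebra.IsAlgebraic K₀ B := inferInstance
    have h1 : IsAlgebraic K₀ z := by
      have := (isAlgebraic_iff_isIntegral.1 hz')
      exact (isIntegral_trans (R := K₀) (A := B) z this).isAlgebraic
    exact mem_algebraicClosure_iff.2 h1
  · have h1 : Cardinal.mk B ≤ Cardinal.aleph0 := by
      have hB : Algebra.IsAlgebraic K₀ B := inferInstance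
      refine (Algebra.IsAlgebraic.cardinalMk_le_max K₀ B).trans ?_
      exact max_le (Cardinal.mk_le_aleph0_iff.2 hK₀c) le_rfl
    exact Set.countable_coe_iff.1 (Cardinal.mk_le_aleph0_iff.1 h1)
  · intro z hz
    have h1 : z ∈ K₀ := Subfield.subset_closure hz
    exact B.algebraMap_mem ⟨z, h1⟩
  · intro z hz h1
    apply hz
    obtain ⟨P, hP, h0⟩ := mem_algebraicClosure_iff.1 (show z ∈ B from h1)
    refine ⟨P.map (Subfield.inclusion hK₀), Polynomial.map_ne_zero hP, ?_⟩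
    rw [Polynomial.aeval_def, Polynomial.eval₂_map]
    exact h0

theorem per_common {X : Type*} (f : X → X) (S : Finset X) (h : ∀ x ∈ S, ∃ n, 1 ≤ n ∧ f^[n] x = x) :
    ∃ n, 1 ≤ n ∧ ∀ x ∈ S, f^[n] x = x := by
  classical
  induction S using Finset.induction_on with
  | empty => exact ⟨1, le_rfl, fun z hz => absurd hz (Finset.notMem_empty z)⟩
  | insert w S hw ih =>
    obtain ⟨n, hn, h1⟩ := ih fun z hz => h z (Finset.mem_insert_of_mem hz)
    obtain ⟨m, hm, h'⟩ := h w (Finset.mem_insert_self _ _)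
    refine ⟨n * m, Nat.mul_pos hn hm, fun z hz => ?_⟩
    rcases Finset.mem_insert.1 hz with rfl | hz
    · rw [mul_comm]
      exact iterate_mul_fix _ _ _ _ h'
    · exact iterate_mul_fix _ _ _ _ (h1 z hz)

theorem iter_iterateFrobenius {κ : Type*} [Field κ] (p : ℕ) [Fact p.Prime] [CharP κ p] (n m : ℕ) (x : κ) :
    (iterateFrobenius κ p n)^[m] x = x ^ p ^ (n * m) := by
  induction m with
  | zero => simp
  | succ m ih =>
    rw [Function.iterate_succ_apply', ih, iterateFrobenius_def, ← pow_mul, ← pow_add, Nat.mul_succ]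

/-- congruence of `z ^ p ^ m` and `z` in terms of the residue -/
theorem rd_pow_iff {p : ℕ} [hp : Fact p.Prime] (τ : ℂ →+* PadicAlgCl p) (z : ℂ) (hz : ‖τ z‖ ≤ 1) (m : ℕ) :
    rd τ z ^ p ^ m = rd τ z ↔ ‖(τ z) ^ p ^ m - τ z‖ < 1 := by
  let z' : Ot τ := ⟨z, (mem_Ot τ).2 hz⟩
  have h1 : rd τ z ^ p ^ m - rd τ z = rh τ (z' ^ p ^ m - z') := by
    rw [map_sub, map_pow, ← rd_coe]
  rw [← sub_eq_zero, h1, rh_eq_zero]
  have h7 : τ ((z' ^ p ^ m - z' : Ot τ) : ℂ) = (τ z) ^ p ^ m - τ z := by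
    push_cast
    rw [map_sub, map_pow]
  rw [h7]

/-- **Block M'** -/
theorem main_of'
    (resdeg : ∀ {κ : Type} [Field κ] [IsAlgClosed κ] (σ : κ →+* κ) {s : ℕ} {d : Fin s → ℕ}
      (D : ℕ), (∀ a, 1 ≤ d a) → (∀ a, d a ≤ D) → ∀ c : Idx d → κ, (∀ q, σ (c q) = c q) →
      (∀ a (x : Fin 2 → κ), x ≠ 0 → ev (form c a) x ≠ 0) → ∀ (w : List (Fin s)) (x : Fin 2 → κ), x ≠ 0 →
      ∃ e, 1 ≤ e ∧ Smooth D e ∧ ol σ x = e * ol σ (ev (word c w) x))
    (jac_det : ∀ {R : Type} [CommRing R] {s : ℕ} {d : Fin s → ℕ} (c : Idx d → R) (a : Fin s) (x : Fin 2 → R),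
      (jac (form c a) x).det = (d a : R) * wrh c a x)
    (red : ∀ (A : Subfield ℂ), (∀ z : ℂ, IsAlgebraic A z → z ∈ A) → ∀ {s : ℕ} {d : Fin s → ℕ}, (∀ a, 1 ≤ d a) →
      ∀ c : Idx d → ℂ, (∀ q, c q ∈ A) →
      HasDeg c → ∃ Z : Finset ℂ, (∀ z ∈ Z, z ∈ A) ∧ (∀ q, c q ∈ Z) ∧
      ∀ (p : ℕ) [Fact p.Prime] (τ : ℂ →+* PadicAlgCl p), Un τ Z →
        (∀ a (x : Fin 2 → kk p), x ≠ 0 → ev (form (fun q => rd τ (c q)) a) x ≠ 0) ∧
        ∀ a (x : Fin 2 → kk p), x ≠ 0 → wrh (fun q => rd τ (c q)) a x = 0 →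
          ∃ y : Fin 2 → ℂ, (∀ i, y i ∈ Z) ∧ (y 1 = 1 ∨ (y 0 = 1 ∧ y 1 = 0)) ∧ wrh c a y = 0 ∧
            pr x = pr fun i => rd τ (y i))
    (cassels : ∀ (Z : Finset ℂ) (N₀ : ℕ), ∃ (p : ℕ) (_ : Fact p.Prime) (τ : ℂ →+* PadicAlgCl p),
      N₀ < p ∧ Un τ Z)
    (res_per : ∀ (p : ℕ) [Fact p.Prime] (z : PadicAlgCl p), ‖z‖ ≤ 1 → ∃ n, 1 ≤ n ∧ ‖z ^ p ^ n - z‖ < 1)
    (trans : ∀ (A : Subfield ℂ), (∀ z : ℂ, IsAlgebraic A z → z ∈ A) → (A : Set ℂ).Countable →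
      ∀ (Y : Finset ℂ), (∀ y ∈ Y, y ∉ A) → ∃ Z : Finset ℂ, (∀ z ∈ Z, z ∈ A) ∧
      ∀ (p : ℕ) [Fact p.Prime] (τ₀ : ℂ →+* PadicAlgCl p) (n : ℕ), 1 ≤ n →
      (∀ z ∈ Z, ‖τ₀ z‖ ≤ 1 ∧ ‖(τ₀ z) ^ p ^ n - τ₀ z‖ < 1) → ∀ l : ℕ, l.Prime →
      ∃ τ : ℂ →+* PadicAlgCl p, (∀ z ∈ A, τ z = τ₀ z) ∧
        ∀ y ∈ Y, ‖τ y‖ ≤ 1 → ∀ m : ℕ, 1 ≤ m → ‖(τ y) ^ p ^ m - τ y‖ < 1 → l ∣ m)
    (algClosed : ∀ (p : ℕ) [Fact p.Prime], IsAlgClosed (kk p))
    (K : Subfield ℂ) {k : ℕ} (d : Fin k → ℕ) (hd : ∀ a, 1 ≤ d a) (c : Idx d → ℂ) (hc : ∀ q, c q ∈ K)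
    (hdeg : HasDeg c) (π : Fin k → Fin k) (α : Fin k → Fin 2 → ℂ) (hα : ∀ b, Transcendental K (α b 0 / α b 1))
    (V : Set (MvPolynomial (Fin k × Fin 2) ℂ)) (hV : ∀ G ∈ V, MultiHom G) : ∃ S : Finset (ℕ × ℕ),
      {m : ℕ | ∀ G ∈ V, eval (fun q => (sysMap c id π)^[m] α q.1 q.2) G = 0} =
        {m | ∃ q ∈ S, ∃ j, m = q.1 + q.2 * j} := by
  classical
  obtain ⟨A, hA, hAc, hcA, hAt⟩ := exists_closed K (Set.range c) (Set.countable_range c)
    (by rintro _ ⟨q, rfl⟩; exact hc q)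
  have hcA' : ∀ q, c q ∈ A := fun q => hcA ⟨q, rfl⟩
  obtain ⟨Z₂, hZ₂, hcZ, hred⟩ := red A hA hd c hcA' hdeg
  set D : ℕ := ∑ a, d a with hD
  have hdD : ∀ a, d a ≤ D := fun a =>
    Finset.single_le_sum (fun i _ => Nat.zero_le (d i)) (Finset.mem_univ a)
  have hα1 : ∀ b, α b 1 ≠ 0 := by
    intro b h0
    apply hα b
    rw [h0, div_zero]
    exact isAlgebraic_zero
  have hαne : ∀ b, α b ≠ 0 := by
    intro b h0
    apply hα1 b
    rw [h0]
    rfl
  let zz : Fin k → ℂ := fun b => α b 0 / α b 1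
  let Y : Finset ℂ := Finset.univ.image zz ∪ Finset.univ.image fun b => (zz b)⁻¹
  have hzzA : ∀ b, zz b ∉ A := fun b => hAt _ (hα b)
  have hY : ∀ y ∈ Y, y ∉ A := by
    intro y hy
    rcases Finset.mem_union.1 hy with hy | hy
    · obtain ⟨b, -, rfl⟩ := Finset.mem_image.1 hy
      exact hzzA b
    · obtain ⟨b, -, rfl⟩ := Finset.mem_image.1 hy
      intro h1
      apply hzzA b
      have h2 := A.inv_mem h1
      rwa [inv_inv] at h2
  obtain ⟨ZT, hZT, htr⟩ := trans A hA hAc Y hY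
  let Z : Finset ℂ := Z₂ ∪ ZT
  obtain ⟨p, hp, τ₀, hpN, hUn⟩ := cassels Z (max D 3)
  have hp3 : 3 ≤ p := (lt_of_le_of_lt (le_max_right D 3) hpN).le
  have hpD : D < p := lt_of_le_of_lt (le_max_left D 3) hpN
  have hZ₂Z : ∀ z ∈ Z₂, z ∈ Z := fun z hz => Finset.mem_union_left _ hz
  have hZTZ : ∀ z ∈ ZT, z ∈ Z := fun z hz => Finset.mem_union_right _ hz
  -- the common period of the residues
  obtain ⟨n, hn, hper⟩ := per_common (frobenius (kk p) p) (Z.image (rd τ₀)) (by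
    intro x hx
    obtain ⟨z, hz, rfl⟩ := Finset.mem_image.1 hx
    obtain ⟨n, hn, h1⟩ := res_per p (τ₀ z) (hUn z hz).1
    refine ⟨n, hn, ?_⟩
    rw [iterate_frobenius]
    exact (rd_pow_iff τ₀ z (hUn z hz).1 n).2 h1)
  have hper' : ∀ z ∈ Z, rd τ₀ z ^ p ^ n = rd τ₀ z := by
    intro z hz
    have h1 := hper _ (Finset.mem_image_of_mem (rd τ₀) hz)
    rwa [iterate_frobenius] at h1
  -- the prime number `l`
  obtain ⟨l, hlN, hl⟩ := Nat.exists_infinite_primes (D + n + 1)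
  obtain ⟨τ, hτ, hτY⟩ := htr p τ₀ n hn (fun z hz =>
    ⟨(hUn z (hZTZ z hz)).1, (rd_pow_iff τ₀ z (hUn z (hZTZ z hz)).1 n).1 (hper' z (hZTZ z hz))⟩) l hl
  have hτ2 : ∀ z ∈ Z₂, τ z = τ₀ z := fun z hz => hτ z (hZ₂ z hz)
  have hUnτ : Un τ Z₂ := by
    intro z hz
    rw [hτ2 z hz]
    exact hUn z (hZ₂Z z hz)
  have hrdτ : ∀ z ∈ Z₂, rd τ z = rd τ₀ z := by
    intro z hz
    unfold rd
    simp only [hτ2 z hz]
  obtain ⟨hgood, hcrit⟩ := hred p τ hUnτ
  have hcτ : ∀ q, ‖τ (c q)‖ ≤ 1 := fun q => (hUnτ _ (hcZ q)).1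
  let σ : kk p →+* kk p := iterateFrobenius (kk p) p n
  have hσZ : ∀ z ∈ Z₂, σ (rd τ z) = rd τ z := by
    intro z hz
    rw [hrdτ z hz]
    exact (iterateFrobenius_def (R := kk p) (p := p) (n := n) _).trans (hper' z (hZ₂Z z hz))
  -- the normalised point
  have htr1 : ∀ b, ‖τ (zz b)‖ ≤ 1 := by
    intro b
    by_contra hcon
    push Not at hcon
    have h0 : (zz b)⁻¹ ∈ Y := Finset.mem_union_right _ (Finset.mem_image.2 ⟨b, Finset.mem_univ _, rfl⟩)
    have h1 : ‖τ (zz b)⁻¹‖ < 1 := by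
      rw [map_inv₀, norm_inv]
      exact inv_lt_one_of_one_lt₀ hcon
    have h2 := hτY _ h0 h1.le 1 le_rfl (by
      have h3 : ‖(τ (zz b)⁻¹) ^ p ^ 1‖ < 1 := by
        rw [norm_pow]
        exact pow_lt_one₀ (norm_nonneg _) h1 (by rw [pow_one]; exact hp.out.ne_zero)
      rw [sub_eq_add_neg]
      refine lt_of_le_of_lt (PadicAlgCl.isNonarchimedean p _ _) (max_lt h3 ?_)
      rw [norm_neg]
      exact h1)
    exact hl.one_lt.ne' (Nat.dvd_one.1 h2)
  let β : Fin k → Fin 2 → ℂ := fun b => nm (α b)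
  have hβ1' : ∀ b, β b 1 = 1 := fun b => (nm_one (hα1 b)).1
  have hβ0' : ∀ b, β b 0 = zz b := fun b => (nm_one (hα1 b)).2
  have hβ1 : ∀ b i, ‖τ (β b i)‖ ≤ 1 := by
    intro b i
    fin_cases i
    · change ‖τ (β b 0)‖ ≤ 1
      rw [hβ0']
      exact htr1 b
    · change ‖τ (β b 1)‖ ≤ 1
      rw [hβ1', map_one, norm_one]
  have hβ0 : ∀ b, (fun i => rd τ (β b i)) ≠ 0 := by
    intro b h0
    have h2 := congrFun h0 1
    change rd τ (β b 1) = 0 at h2
    rw [hβ1', rd_one] at h2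
    exact one_ne_zero h2
  have holT : ∀ b, l ∣ ol σ (fun i => rd τ (β b i)) := by
    intro b
    set m := ol σ (fun i => rd τ (β b i)) with hm
    rcases Nat.eq_zero_or_pos m with h0 | h0
    · rw [h0]
      exact dvd_zero l
    · have h3 : zz b ∈ Y := Finset.mem_union_left _ (Finset.mem_image.2 ⟨b, Finset.mem_univ _, rfl⟩)
      have h4 : (Option.map σ)^[m] (pr fun i => rd τ (β b i)) =
          pr fun i => rd τ (β b i) := Function.isPeriodicPt_minimalPeriod _ _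
      have h5 : pr (fun i => rd τ (β b i)) = some (rd τ (zz b)) := by
        rw [pr_one _ (by
          change rd τ (β b 1) = 1
          rw [hβ1', rd_one])]
        rw [hβ0']
      rw [h5, option_iterate, Option.some_inj] at h4
      have h6 : rd τ (zz b) ^ p ^ (n * m) = rd τ (zz b) :=
        (iter_iterateFrobenius (κ := kk p) p n m _).symm.trans h4
      have h7 := (rd_pow_iff τ (zz b) (htr1 b) (n * m)).1 h6
      have h8 := hτY _ h3 (htr1 b) (n * m) (Nat.mul_pos hn h0) h7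
      rcases (Nat.Prime.dvd_mul hl).1 h8 with h9 | h9
      · have := Nat.le_of_dvd hn h9
        omega
      · exact h9
  have hcfr : ∀ q, σ (rd τ (c q)) = rd τ (c q) := fun q => hσZ _ (hcZ q)
  have halg : IsAlgClosed (kk p) := algClosed p
  have hword0 : ∀ (u : List (Fin k)) (x : Fin 2 → kk p), x ≠ 0 →
      ev (word (fun q => rd τ (c q)) u) x ≠ 0 := by
    intro u x hx
    induction u with
    | nil => rwa [ev_word_nil]
    | cons a u ih =>
      rw [ev_word_cons]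
      exact hgood a _ ih
  -- the scaling
  choose ls hls hαβ using fun b => exists_scale (α b) (hαne b)
  have hαβ' : α = fun b i => ls b * β b i := funext hαβ
  have hset : {m : ℕ | ∀ G ∈ V, eval (fun q => (sysMap c id π)^[m] α q.1 q.2) G = 0} =
      {m : ℕ | ∀ G ∈ V, eval (fun q => (sysMap c id π)^[m] β q.1 q.2) G = 0} := by
    ext m
    simp only [Set.mem_ofPred_eq]
    refine forall₂_congr fun G hG => ?_
    rw [hαβ']
    exact sys_scale_pt c id π β ls hls m G (hV G hG)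
  rw [hset]
  refine eng d c p hp3 τ hcτ π β hβ1 ?_ V hV
  intro b u hu a ha
  obtain ⟨hx1, hx2⟩ := rd_word τ c hcτ (β b) (hβ1 b) u
  obtain ⟨hj1, hj2⟩ := rd_jac τ c hcτ (ev (word c u) (β b)) hx1 a
  refine norm_of_rd_ne_zero τ hj1 ?_
  rw [hj2, hx2, jac_det]
  intro h0
  have hda : ((d a : ℕ) : kk p) ≠ 0 := by
    intro h1
    have h2 := (CharP.cast_eq_zero_iff (kk p) p (d a)).1 h1
    have h3 := Nat.le_of_dvd (hd a) h2
    have h4 := hdD a
    omega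
  have hw0 := (mul_eq_zero.1 h0).resolve_left hda
  set xb := ev (word (fun q => rd τ (c q)) u) (fun i => rd τ (β b i)) with hxb
  have hxb0 : xb ≠ 0 := hword0 u _ (hβ0 b)
  obtain ⟨y, hyZ, hy1, hyw, hpr⟩ := hcrit a xb hxb0 hw0
  have holy : ol σ xb = 1 := by
    have h1 : ol σ xb = ol σ (fun i => rd τ (y i)) := by
      unfold ol
      rw [hpr]
    rw [h1]
    rcases hy1 with h2 | ⟨-, h2⟩
    · unfold ol
      rw [pr_one _ (by
        change rd τ (y 1) = 1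
        rw [h2, rd_one]), Function.minimalPeriod_eq_one_iff_isFixedPt]
      change some (σ (rd τ (y 0))) = some (rd τ (y 0))
      rw [hσZ _ (hyZ 0)]
    · exact ol_inf σ _ (by
        change rd τ (y 1) = 0
        rw [h2, rd_zero])
  obtain ⟨e, he1, hesm, he⟩ := resdeg (κ := kk p) σ D hd hdD
    (fun q => rd τ (c q)) hcfr hgood u (fun i => rd τ (β b i)) (hβ0 b)
  rw [← hxb, holy, mul_one] at he
  have h1 := holT b
  rw [he] at h1
  have h2 := hesm l hl h1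
  omega

end

end Pool.Agent.Helper26.OB
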