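import Pool.Agent.Helper26.OB.MC
import Pool.Agent.Helper46.OB.ResDeg2
import Pool.Agent.Helper46.OB.Alg
import Pool.Agent.Helper11.OB.JacDet
import Pool.Agent.Helper11.OB.Red
import Pool.Agent.Helper53.OB.Frob
import Pool.Agent.Helper95.OB.Teq
import Pool.Agent.Helper98.OB.T2
import Pool.Agent.Helper98.OB.RP
import Pool.Agent.Helper86.OB.Emb
import Pool.Agent.Helper70.OB.Trans
import Pool.Agent.Helper43.OB.Sylow
import Pool.Agent.Helper10.OB.Cor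
import Pool.Agent.Helper38.OB.OlEq

/-!
# OB: the criterion for maps over number fields
-/

set_option autoImplicit false

namespace Pool.Agent.Helper26.OB

open MvPolynomial Pool.Agent.Helper86.DML Pool.Agent.Helper61.TH Pool.Agent.Helper87.FK
open Pool.Agent.Helper26.FU (MultiHom)

noncomputable section

/-- **The criterion** -/
theorem main {k : ℕ} (d : Fin k → ℕ) (D : ℕ) (hd : ∀ a, 1 ≤ d a ∧ d a ≤ D) (c : Idx d → ℂ)
    (hc : ∀ q, IsAlgebraic ℚ (c q)) (hdeg : HasDeg c) (π : Fin k → Fin k) (α : Fin k → Fin 2 → ℂ)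
    (hα : ∀ b, α b ≠ 0) (σ : ℂ ≃+* ℂ) (hσ : ∀ q, σ (c q) = c q)
    (h : ∀ a b, Adm π a b → IsAlgebraic ℚ (α b 0 / α b 1) → ∀ x : Fin 2 → ℂ, x ≠ 0 → wrh c a x = 0 →
      ∀ e, ol (σ : ℂ →+* ℂ) (α b) = e * ol (σ : ℂ →+* ℂ) x → ∃ r, r.Prime ∧ r ∣ e ∧ D < r)
    (V : Set (MvPolynomial (Fin k × Fin 2) ℂ)) (hV : ∀ G ∈ V, MultiHom G) : ∃ S : Finset (ℕ × ℕ),
      {m : ℕ | ∀ G ∈ V, eval (fun q => (sysMap c id π)^[m] α q.1 q.2) G = 0} =
        {m | ∃ q ∈ S, ∃ j, m = q.1 + q.2 * j} :=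
  main_of
    (fun p _ _ _ _ D hd1 hD c hc hgood w x hx => Pool.Agent.Helper46.OB.resdeg p D hd1 hD c hc hgood w x hx)
    (fun c a x => Pool.Agent.Helper11.OB.jac_det c a x)
    (fun hd1 c hc hdeg => Pool.Agent.Helper11.OB.red hd1 c hc hdeg)
    (fun σ Z hZ N₀ => Pool.Agent.Helper53.OB.frob_equiv σ Z hZ N₀)
    (fun Y hY => Pool.Agent.Helper70.OB.trans (fun Y hY => Pool.Agent.Helper95.OB.teq Y hY)
      (fun p _ N hN => unity p N hN) (fun p _ L₀ hL₀ τ₀ _ t ht θ => emb p L₀ hL₀ τ₀ t ht θ) Y hY)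
    (fun p _ => Pool.Agent.Helper46.OB.algClosed_kk p)
    d D hd c hc hdeg π α hα σ hσ h V hV

/-- **The corollary** -/
theorem cor {k : ℕ} (K : Subfield ℂ) [NumberField K] (d : Fin k → ℕ) (D : ℕ) (hd : ∀ a, 1 ≤ d a ∧ d a ≤ D)
    (c : Idx d → ℂ) (hc : ∀ q, c q ∈ K) (hdeg : HasDeg c) (l : ℕ) (hl : l.Prime) (hDl : D < l)
    (hDl2 : 2 * D - 2 < l) (hk : k ≤ l) (π : Fin k → Fin k) (α : Fin k → Fin 2 → ℂ) (hα : ∀ b, α b ≠ 0)
    (h : ∀ b, Transcendental ℚ (α b 0 / α b 1) ∨ l ∣ (minpoly K (α b 0 / α b 1)).natDegree)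
    (V : Set (MvPolynomial (Fin k × Fin 2) ℂ)) (hV : ∀ G ∈ V, MultiHom G) : ∃ S : Finset (ℕ × ℕ),
      {m : ℕ | ∀ G ∈ V, eval (fun q => (sysMap c id π)^[m] α q.1 q.2) G = 0} =
        {m | ∃ q ∈ S, ∃ j, m = q.1 + q.2 * j} :=
  Pool.Agent.Helper10.OB.cor_of
    (fun d D hd c hc hdeg π α hα σ hσ h V hV => main d D hd c hc hdeg π α hα σ hσ h V hV)
    (fun K _ l hl _ hk x hx => Pool.Agent.Helper43.OB.sylow K l hl hk x hx)
    K d D hd c hc hdeg l hl hDl hDl2 hk π α hα h V hV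

end

end Pool.Agent.Helper26.OB
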