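import Mathlib
import Pool.Agent.Helper26.OB.MC
import Pool.Agent.Helper10.OB.Cor

/-!
# OB: points with transcendental coordinates; no condition on the coordinates of the factors of degree one
-/

set_option autoImplicit false

namespace Pool.Agent.Helper26.OB

open MvPolynomial Pool.Agent.Helper86.DML Pool.Agent.Helper61.TH Pool.Agent.Helper87.FK
open Pool.Agent.Helper26.FU (MultiHom eval_multi)

noncomputable section

/-- no critical points in degree one -/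
theorem wrh_one {s : ℕ} {d : Fin s → ℕ} (c : Idx d → ℂ) (hdeg : HasDeg c) (a : Fin s) (hda : d a = 1)
    (x : Fin 2 → ℂ) : wrh c a x ≠ 0 := by
  have h1 : wrh c a x = wrh c a ![0, 1] := by
    unfold wrh
    refine Finset.sum_congr rfl fun i _ => Finset.sum_congr rfl fun j _ => ?_
    by_cases hij : (i : ℕ) = j
    · rw [hij, sub_self]
      ring
    · have hi := i.2
      have hj := j.2
      have h2 : (i : ℕ) + j - 1 = 0 := by omega
      have h3 : 2 * d a - 1 - i - j = 0 := by omega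
      rw [h2, h3, pow_zero, pow_zero, pow_zero, pow_zero]
  rw [h1, ← Pool.Agent.Helper10.OB.eval_wp c a ![0, 1] rfl]
  have h2 := Pool.Agent.Helper10.OB.wp_ne_zero c hdeg a hda.symm.le
  have h3 := Pool.Agent.Helper10.OB.natDegree_wp c a
  have h4 : (Pool.Agent.Helper10.OB.wp c a).natDegree = 0 := by omega
  rw [Polynomial.eq_C_of_natDegree_eq_zero h4, Polynomial.eval_C]
  intro h5
  apply h2
  rw [Polynomial.eq_C_of_natDegree_eq_zero h4, h5, Polynomial.C_0]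

/-- **Block M''** -/
theorem main_of''
    (resdeg : ∀ {κ : Type} [Field κ] [IsAlgClosed κ] (σ : κ →+* κ) {s : ℕ} {d : Fin s → ℕ}
      (D : ℕ), (∀ a, 1 ≤ d a) → (∀ a, d a ≤ D) → ∀ c : Idx d → κ, (∀ q, σ (c q) = c q) →
      (∀ a (x : Fin 2 → κ), x ≠ 0 → ev (form c a) x ≠ 0) → ∀ (w : List (Fin s)) (x : Fin 2 → κ), x ≠ 0 →
      ∃ e, 1 ≤ e ∧ Smooth D e ∧ ol σ x = e * ol σ (ev (word c w) x))
    (jac_det : ∀ {R : Type} [CommRing R] {s : ℕ} {d : Fin s → ℕ} (c : Idx d → R) (a : Fin s) (x : Fin 2 → R),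
      (jac (form c a) x).det = (d a : R) * wrh c a x)
    (red : ∀ (A : Subfield ℂ), (∀ z : ℂ, IsAlgebraic A z → z ∈ A) → ∀ {s : ℕ} {d : Fin s → ℕ}, (∀ a, 1 ≤ d a) →
      ∀ c : Idx d → ℂ, (∀ q, c q ∈ A) →
      HasDeg c → ∃ Z : Finset ℂ, (∀ z ∈ Z, z ∈ A) ∧ (∀ q, c q ∈ Z) ∧
      ∀ (p : ℕ) [Fact p.Prime] (τ : ℂ →+* PadicAlgCl p), Un τ Z →
        (∀ a (x : Fin 2 → kk p), x ≠ 0 → ev (form (fun q => rd τ (c q)) a) x ≠ 0) ∧
        ∀ a (x : Fin 2 → kk p), x ≠ 0 → wrh (fun q => rd τ (c q)) a x = 0 →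
          ∃ y : Fin 2 → ℂ, (∀ i, y i ∈ Z) ∧ (y 1 = 1 ∨ (y 0 = 1 ∧ y 1 = 0)) ∧ wrh c a y = 0 ∧
            pr x = pr fun i => rd τ (y i))
    (cassels : ∀ (Z : Finset ℂ) (N₀ : ℕ), ∃ (p : ℕ) (_ : Fact p.Prime) (τ : ℂ →+* PadicAlgCl p),
      N₀ < p ∧ Un τ Z)
    (res_per : ∀ (p : ℕ) [Fact p.Prime] (z : PadicAlgCl p), ‖z‖ ≤ 1 → ∃ n, 1 ≤ n ∧ ‖z ^ p ^ n - z‖ < 1)
    (trans : ∀ (A : Subfield ℂ), (∀ z : ℂ, IsAlgebraic A z → z ∈ A) → (A : Set ℂ).Countable →
      ∀ (Y : Finset ℂ), (∀ y ∈ Y, y ∉ A) → ∃ Z : Finset ℂ, (∀ z ∈ Z, z ∈ A) ∧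
      ∀ (p : ℕ) [Fact p.Prime] (τ₀ : ℂ →+* PadicAlgCl p) (n : ℕ), 1 ≤ n →
      (∀ z ∈ Z, ‖τ₀ z‖ ≤ 1 ∧ ‖(τ₀ z) ^ p ^ n - τ₀ z‖ < 1) → ∀ l : ℕ, l.Prime →
      ∃ τ : ℂ →+* PadicAlgCl p, (∀ z ∈ A, τ z = τ₀ z) ∧
        ∀ y ∈ Y, ‖τ y‖ ≤ 1 → ∀ m : ℕ, 1 ≤ m → ‖(τ y) ^ p ^ m - τ y‖ < 1 → l ∣ m)
    (algClosed : ∀ (p : ℕ) [Fact p.Prime], IsAlgClosed (kk p))
    (K : Subfield ℂ) {k : ℕ} (d : Fin k → ℕ) (hd : ∀ a, 1 ≤ d a) (c : Idx d → ℂ) (hc : ∀ q, c q ∈ K)
    (hdeg : HasDeg c) (π : Fin k → Fin k) (α : Fin k → Fin 2 → ℂ) (hαne : ∀ b, α b ≠ 0)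
    (hα : ∀ b, (∃ a, Adm π a b ∧ 2 ≤ d a) → Transcendental K (α b 0 / α b 1))
    (V : Set (MvPolynomial (Fin k × Fin 2) ℂ)) (hV : ∀ G ∈ V, MultiHom G) : ∃ S : Finset (ℕ × ℕ),
      {m : ℕ | ∀ G ∈ V, eval (fun q => (sysMap c id π)^[m] α q.1 q.2) G = 0} =
        {m | ∃ q ∈ S, ∃ j, m = q.1 + q.2 * j} := by
  classical
  obtain ⟨A, hA, hAc, hcA, hAt⟩ := exists_closed K (Set.range c) (Set.countable_range c)
    (by rintro _ ⟨q, rfl⟩; exact hc q)
  have hcA' : ∀ q, c q ∈ A := fun q => hcA ⟨q, rfl⟩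
  obtain ⟨Z₂, hZ₂, hcZ, hred⟩ := red A hA hd c hcA' hdeg
  set D : ℕ := ∑ a, d a with hD
  have hdD : ∀ a, d a ≤ D := fun a =>
    Finset.single_le_sum (fun i _ => Nat.zero_le (d i)) (Finset.mem_univ a)
  let Cn : Fin k → Prop := fun b => ∃ a, Adm π a b ∧ 2 ≤ d a
  have hα1 : ∀ b, Cn b → α b 1 ≠ 0 := by
    intro b hb h0
    apply hα b hb
    rw [h0, div_zero]
    exact isAlgebraic_zero
  let zz : Fin k → ℂ := fun b => α b 0 / α b 1
  let Y : Finset ℂ := (Finset.univ.filter Cn).image zz ∪ (Finset.univ.filter Cn).image fun b => (zz b)⁻¹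
  have hzzA : ∀ b, Cn b → zz b ∉ A := fun b hb => hAt _ (hα b hb)
  have hY : ∀ y ∈ Y, y ∉ A := by
    intro y hy
    rcases Finset.mem_union.1 hy with hy | hy
    · obtain ⟨b, hb, rfl⟩ := Finset.mem_image.1 hy
      exact hzzA b (Finset.mem_filter.1 hb).2
    · obtain ⟨b, hb, rfl⟩ := Finset.mem_image.1 hy
      intro h1
      apply hzzA b (Finset.mem_filter.1 hb).2
      have h2 := A.inv_mem h1
      rwa [inv_inv] at h2
  obtain ⟨ZT, hZT, htr⟩ := trans A hA hAc Y hY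
  let Z : Finset ℂ := Z₂ ∪ ZT
  obtain ⟨p, hp, τ₀, hpN, hUn⟩ := cassels Z (max D 3)
  have hp3 : 3 ≤ p := (lt_of_le_of_lt (le_max_right D 3) hpN).le
  have hpD : D < p := lt_of_le_of_lt (le_max_left D 3) hpN
  have hZ₂Z : ∀ z ∈ Z₂, z ∈ Z := fun z hz => Finset.mem_union_left _ hz
  have hZTZ : ∀ z ∈ ZT, z ∈ Z := fun z hz => Finset.mem_union_right _ hz
  -- the common period of the residues
  obtain ⟨n, hn, hper⟩ := per_common (frobenius (kk p) p) (Z.image (rd τ₀)) (by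
    intro x hx
    obtain ⟨z, hz, rfl⟩ := Finset.mem_image.1 hx
    obtain ⟨n, hn, h1⟩ := res_per p (τ₀ z) (hUn z hz).1
    refine ⟨n, hn, ?_⟩
    rw [iterate_frobenius]
    exact (rd_pow_iff τ₀ z (hUn z hz).1 n).2 h1)
  have hper' : ∀ z ∈ Z, rd τ₀ z ^ p ^ n = rd τ₀ z := by
    intro z hz
    have h1 := hper _ (Finset.mem_image_of_mem (rd τ₀) hz)
    rwa [iterate_frobenius] at h1
  -- the prime number `l`
  obtain ⟨l, hlN, hl⟩ := Nat.exists_infinite_primes (D + n + 1)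
  obtain ⟨τ, hτ, hτY⟩ := htr p τ₀ n hn (fun z hz =>
    ⟨(hUn z (hZTZ z hz)).1, (rd_pow_iff τ₀ z (hUn z (hZTZ z hz)).1 n).1 (hper' z (hZTZ z hz))⟩) l hl
  have hτ2 : ∀ z ∈ Z₂, τ z = τ₀ z := fun z hz => hτ z (hZ₂ z hz)
  have hUnτ : Un τ Z₂ := by
    intro z hz
    rw [hτ2 z hz]
    exact hUn z (hZ₂Z z hz)
  have hrdτ : ∀ z ∈ Z₂, rd τ z = rd τ₀ z := by
    intro z hz
    unfold rd
    simp only [hτ2 z hz]
  obtain ⟨hgood, hcrit⟩ := hred p τ hUnτ
  have hcτ : ∀ q, ‖τ (c q)‖ ≤ 1 := fun q => (hUnτ _ (hcZ q)).1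
  let σ : kk p →+* kk p := iterateFrobenius (kk p) p n
  have hσZ : ∀ z ∈ Z₂, σ (rd τ z) = rd τ z := by
    intro z hz
    rw [hrdτ z hz]
    exact (iterateFrobenius_def (R := kk p) (p := p) (n := n) _).trans (hper' z (hZ₂Z z hz))
  -- the normalised point
  have htr1 : ∀ b, Cn b → ‖τ (zz b)‖ ≤ 1 := by
    intro b hb
    by_contra hcon
    push Not at hcon
    have h0 : (zz b)⁻¹ ∈ Y := Finset.mem_union_right _
      (Finset.mem_image.2 ⟨b, Finset.mem_filter.2 ⟨Finset.mem_univ _, hb⟩, rfl⟩)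
    have h1 : ‖τ (zz b)⁻¹‖ < 1 := by
      rw [map_inv₀, norm_inv]
      exact inv_lt_one_of_one_lt₀ hcon
    have h2 := hτY _ h0 h1.le 1 le_rfl (by
      have h3 : ‖(τ (zz b)⁻¹) ^ p ^ 1‖ < 1 := by
        rw [norm_pow]
        exact pow_lt_one₀ (norm_nonneg _) h1 (by rw [pow_one]; exact hp.out.ne_zero)
      rw [sub_eq_add_neg]
      refine lt_of_le_of_lt (PadicAlgCl.isNonarchimedean p _ _) (max_lt h3 ?_)
      rw [norm_neg]
      exact h1)
    exact hl.one_lt.ne' (Nat.dvd_one.1 h2)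
  have hex : ∀ b, ∃ (β : Fin 2 → ℂ) (l : ℂ), l ≠ 0 ∧ (α b = fun i => l * β i) ∧ (∀ i, ‖τ (β i)‖ ≤ 1) ∧
      (fun i => rd τ (β i)) ≠ 0 ∧ (Cn b → β 0 = zz b ∧ β 1 = 1) := by
    intro b
    by_cases hb : α b 1 ≠ 0 ∧ ‖τ (zz b)‖ ≤ 1
    · refine ⟨![zz b, 1], α b 1, hb.1, ?_, ?_, ?_, fun _ => ⟨rfl, rfl⟩⟩
      · funext i
        fin_cases i
        · change α b 0 = α b 1 * (α b 0 / α b 1)
          rw [mul_div_cancel₀ _ hb.1]
        · change α b 1 = α b 1 * 1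
          rw [mul_one]
      · intro i
        fin_cases i
        · exact hb.2
        · change ‖τ 1‖ ≤ 1
          rw [map_one, norm_one]
      · intro h0
        have h2 := congrFun h0 1
        change rd τ 1 = 0 at h2
        rw [rd_one] at h2
        exact one_ne_zero h2
    · have hfree : ¬ Cn b := fun h => hb ⟨hα1 b h, htr1 b h⟩
      have h3 : α b 0 ≠ 0 ∧ α b 1 = α b 0 * (zz b)⁻¹ ∧ ‖τ (zz b)⁻¹‖ ≤ 1 := by
        by_cases h1 : α b 1 = 0
        · refine ⟨fun h0 => hαne b ?_, ?_, ?_⟩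
          · funext i
            fin_cases i
            · exact h0
            · exact h1
          · change α b 1 = α b 0 * (α b 0 / α b 1)⁻¹
            rw [h1, div_zero, inv_zero, mul_zero]
          · change ‖τ (α b 0 / α b 1)⁻¹‖ ≤ 1
            rw [h1, div_zero, inv_zero, map_zero, norm_zero]
            exact zero_le_one
        · have h2 : 1 < ‖τ (zz b)‖ := by
            by_contra h2
            exact hb ⟨h1, not_lt.1 h2⟩
          have h4 : zz b ≠ 0 := by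
            intro h0
            rw [h0, map_zero, norm_zero] at h2
            exact absurd h2 (not_lt.2 zero_le_one)
          have h5 : α b 0 ≠ 0 := by
            intro h0
            apply h4
            change α b 0 / α b 1 = 0
            rw [h0, zero_div]
          refine ⟨h5, ?_, ?_⟩
          · change α b 1 = α b 0 * (α b 0 / α b 1)⁻¹
            rw [inv_div, mul_div_cancel₀ _ h5]
          · rw [map_inv₀, norm_inv]
            exact (inv_lt_one_of_one_lt₀ h2).le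
      refine ⟨![1, (zz b)⁻¹], α b 0, h3.1, ?_, ?_, ?_, fun h => absurd h hfree⟩
      · funext i
        fin_cases i
        · change α b 0 = α b 0 * 1
          rw [mul_one]
        · exact h3.2.1
      · intro i
        fin_cases i
        · change ‖τ 1‖ ≤ 1
          rw [map_one, norm_one]
        · exact h3.2.2
      · intro h0
        have h2 := congrFun h0 0
        change rd τ 1 = 0 at h2
        rw [rd_one] at h2
        exact one_ne_zero h2
  choose β ls hls hαβ hβ1 hβ0 hβC using hex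
  have holT : ∀ b, Cn b → l ∣ ol σ (fun i => rd τ (β b i)) := by
    intro b hb
    obtain ⟨hβ0', hβ1'⟩ := hβC b hb
    set m := ol σ (fun i => rd τ (β b i)) with hm
    rcases Nat.eq_zero_or_pos m with h0 | h0
    · rw [h0]
      exact dvd_zero l
    · have h3 : zz b ∈ Y := Finset.mem_union_left _
        (Finset.mem_image.2 ⟨b, Finset.mem_filter.2 ⟨Finset.mem_univ _, hb⟩, rfl⟩)
      have h4 : (Option.map σ)^[m] (pr fun i => rd τ (β b i)) =
          pr fun i => rd τ (β b i) := Function.isPeriodicPt_minimalPeriod _ _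
      have h5 : pr (fun i => rd τ (β b i)) = some (rd τ (zz b)) := by
        rw [pr_one _ (by
          change rd τ (β b 1) = 1
          rw [hβ1', rd_one]), hβ0']
      rw [h5, option_iterate, Option.some_inj] at h4
      have h6 : rd τ (zz b) ^ p ^ (n * m) = rd τ (zz b) :=
        (iter_iterateFrobenius (κ := kk p) p n m _).symm.trans h4
      have h7 := (rd_pow_iff τ (zz b) (htr1 b hb) (n * m)).1 h6
      have h8 := hτY _ h3 (htr1 b hb) (n * m) (Nat.mul_pos hn h0) h7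
      rcases (Nat.Prime.dvd_mul hl).1 h8 with h9 | h9
      · have := Nat.le_of_dvd hn h9
        omega
      · exact h9
  have hcfr : ∀ q, σ (rd τ (c q)) = rd τ (c q) := fun q => hσZ _ (hcZ q)
  have halg : IsAlgClosed (kk p) := algClosed p
  have hword0 : ∀ (u : List (Fin k)) (x : Fin 2 → kk p), x ≠ 0 →
      ev (word (fun q => rd τ (c q)) u) x ≠ 0 := by
    intro u x hx
    induction u with
    | nil => rwa [ev_word_nil]
    | cons a u ih =>
      rw [ev_word_cons]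
      exact hgood a _ ih
  -- the scaling
  have hαβ' : α = fun b i => ls b * β b i := funext hαβ
  have hset : {m : ℕ | ∀ G ∈ V, eval (fun q => (sysMap c id π)^[m] α q.1 q.2) G = 0} =
      {m : ℕ | ∀ G ∈ V, eval (fun q => (sysMap c id π)^[m] β q.1 q.2) G = 0} := by
    ext m
    simp only [Set.mem_ofPred_eq]
    refine forall₂_congr fun G hG => ?_
    rw [hαβ']
    exact sys_scale_pt c id π β ls hls m G (hV G hG)
  rw [hset]
  refine eng d c p hp3 τ hcτ π β hβ1 ?_ V hV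
  intro b u hu a ha
  obtain ⟨hx1, hx2⟩ := rd_word τ c hcτ (β b) (hβ1 b) u
  obtain ⟨hj1, hj2⟩ := rd_jac τ c hcτ (ev (word c u) (β b)) hx1 a
  refine norm_of_rd_ne_zero τ hj1 ?_
  rw [hj2, hx2, jac_det]
  intro h0
  have hda : ((d a : ℕ) : kk p) ≠ 0 := by
    intro h1
    have h2 := (CharP.cast_eq_zero_iff (kk p) p (d a)).1 h1
    have h3 := Nat.le_of_dvd (hd a) h2
    have h4 := hdD a
    omega
  have hw0 := (mul_eq_zero.1 h0).resolve_left hda
  set xb := ev (word (fun q => rd τ (c q)) u) (fun i => rd τ (β b i)) with hxb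
  have hxb0 : xb ≠ 0 := hword0 u _ (hβ0 b)
  obtain ⟨y, hyZ, hy1, hyw, hpr⟩ := hcrit a xb hxb0 hw0
  have holy : ol σ xb = 1 := by
    have h1 : ol σ xb = ol σ (fun i => rd τ (y i)) := by
      unfold ol
      rw [hpr]
    rw [h1]
    rcases hy1 with h2 | ⟨-, h2⟩
    · unfold ol
      rw [pr_one _ (by
        change rd τ (y 1) = 1
        rw [h2, rd_one]), Function.minimalPeriod_eq_one_iff_isFixedPt]
      change some (σ (rd τ (y 0))) = some (rd τ (y 0))
      rw [hσZ _ (hyZ 0)]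
    · exact ol_inf σ _ (by
        change rd τ (y 1) = 0
        rw [h2, rd_zero])
  have hyne : y ≠ 0 := by
    rintro rfl
    rcases hy1 with h1 | ⟨h1, -⟩
    · exact zero_ne_one h1
    · exact zero_ne_one h1
  have hb : Cn b := by
    refine ⟨a, ha, ?_⟩
    by_contra h2
    have h3 : d a = 1 := by
      have := hd a
      omega
    exact wrh_one c hdeg a h3 y hyw
  obtain ⟨e, he1, hesm, he⟩ := resdeg (κ := kk p) σ D hd hdD
    (fun q => rd τ (c q)) hcfr hgood u (fun i => rd τ (β b i)) (hβ0 b)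
  rw [← hxb, holy, mul_one] at he
  have h1 := holT b hb
  rw [he] at h1
  have h2 := hesm l hl h1
  omega

end

end Pool.Agent.Helper26.OB
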