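import Pool.Agent.Helper26.OB.Fin1
import Pool.Agent.Helper26.OB.MD
import Pool.Agent.Helper11.OB.Red2
import Pool.Agent.Helper53.OB.Cassels
import Pool.Agent.Helper38.OB.TeqA
import Pool.Agent.Helper83.OB.TransA

/-!
# OB: the theorem
-/

set_option autoImplicit false

namespace Pool.Agent.Helper26.OB

open MvPolynomial Pool.Agent.Helper86.DML Pool.Agent.Helper61.TH Pool.Agent.Helper87.FK
open Pool.Agent.Helper26.FU (MultiHom)
open Pool.Agent.Helper10.OB (wp_ne_zero eval_wp wrh_smul natDegree_wp ol_fin ol_infty minimalPeriod_le_card)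

noncomputable section

/-- **Points with transcendental coordinates** -/
theorem mainC (K : Subfield ℂ) {k : ℕ} (d : Fin k → ℕ) (hd : ∀ a, 1 ≤ d a) (c : Idx d → ℂ) (hc : ∀ q, c q ∈ K)
    (hdeg : HasDeg c) (π : Fin k → Fin k) (α : Fin k → Fin 2 → ℂ) (hαne : ∀ b, α b ≠ 0)
    (hα : ∀ b, (∃ a, Adm π a b ∧ 2 ≤ d a) → Transcendental K (α b 0 / α b 1))
    (V : Set (MvPolynomial (Fin k × Fin 2) ℂ)) (hV : ∀ G ∈ V, MultiHom G) : ∃ S : Finset (ℕ × ℕ),
      {m : ℕ | ∀ G ∈ V, eval (fun q => (sysMap c id π)^[m] α q.1 q.2) G = 0} =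
        {m | ∃ q ∈ S, ∃ j, m = q.1 + q.2 * j} :=
  main_of''
    (fun σ _ _ D hd1 hD c hc hgood w x hx => Pool.Agent.Helper46.OB.resdeg' σ D hd1 hD c hc hgood w x hx)
    (fun c a x => Pool.Agent.Helper11.OB.jac_det c a x)
    (fun A hA _ _ hd1 c hc hdeg => Pool.Agent.Helper11.OB.red' A hA hd1 c hc hdeg)
    (fun Z N₀ => Pool.Agent.Helper53.OB.cassels Z N₀)
    (fun p _ z hz => res_per p z hz)
    (fun A hA hAc Y hY => Pool.Agent.Helper83.OBA.trans' (fun A hA Y hY => Pool.Agent.Helper38.OB.teq' A hA Y hY)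
      (fun p _ N hN => unity p N hN) (fun p _ L₀ hL₀ τ₀ _ t ht θ => emb p L₀ hL₀ τ₀ t ht θ) A hA hAc Y hY)
    (fun p _ => Pool.Agent.Helper46.OB.algClosed_kk p)
    K d hd c hc hdeg π α hαne hα V hV

/-- **Points of degree divisible by a large prime number** -/
theorem mainN {k : ℕ} (K : Subfield ℂ) [NumberField K] (d : Fin k → ℕ) (D : ℕ) (hd : ∀ a, 1 ≤ d a ∧ d a ≤ D)
    (c : Idx d → ℂ) (hc : ∀ q, c q ∈ K) (hdeg : HasDeg c) (l : ℕ) (hl : l.Prime) (hDl : D < l)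
    (hDl2 : 2 * D - 2 < l) (hk : k ≤ l) (π : Fin k → Fin k) (α : Fin k → Fin 2 → ℂ) (hα : ∀ b, α b ≠ 0)
    (h : ∀ b, (∃ a, Adm π a b ∧ 2 ≤ d a) →
      Transcendental ℚ (α b 0 / α b 1) ∨ l ∣ (minpoly K (α b 0 / α b 1)).natDegree)
    (V : Set (MvPolynomial (Fin k × Fin 2) ℂ)) (hV : ∀ G ∈ V, MultiHom G) : ∃ S : Finset (ℕ × ℕ),
      {m : ℕ | ∀ G ∈ V, eval (fun q => (sysMap c id π)^[m] α q.1 q.2) G = 0} =
        {m | ∃ q ∈ S, ∃ j, m = q.1 + q.2 * j} := by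
  classical
  have hcalg : ∀ q, IsAlgebraic ℚ (c q) := by
    intro q
    have h1 : IsAlgebraic ℚ (⟨c q, hc q⟩ : K) := Algebra.IsAlgebraic.isAlgebraic _
    exact (isAlgebraic_algebraMap_iff (S := K) (A := ℂ) Subtype.val_injective).2 h1
  -- the automorphism
  obtain ⟨σ, hσK, hσx⟩ : ∃ σ : ℂ ≃+* ℂ, (∀ z ∈ K, σ z = z) ∧ ∀ b, (∃ a, Adm π a b ∧ 2 ≤ d a) →
      IsAlgebraic ℚ (α b 0 / α b 1) → l ∣ Function.minimalPeriod σ (α b 0 / α b 1) := by
    by_cases hex : ∃ b, (∃ a, Adm π a b ∧ 2 ≤ d a)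
    · obtain ⟨b₀, hb₀⟩ := hex
      let x : Fin k → ℂ := fun b => if (∃ a, Adm π a b ∧ 2 ≤ d a) then α b 0 / α b 1 else α b₀ 0 / α b₀ 1
      obtain ⟨σ, h1, h2⟩ := Pool.Agent.Helper43.OB.sylow K l hl hk x (by
        intro b hb
        by_cases hcn : (∃ a, Adm π a b ∧ 2 ≤ d a)
        · simp only [x, if_pos hcn] at hb ⊢
          exact (h b hcn).resolve_left fun h3 => h3 hb
        · simp only [x, if_neg hcn] at hb ⊢
          exact (h b₀ hb₀).resolve_left fun h3 => h3 hb)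
      refine ⟨σ, h1, fun b hb halg => ?_⟩
      have h3 := h2 b
      simp only [x, if_pos hb] at h3
      exact h3 halg
    · exact ⟨RingEquiv.refl ℂ, fun z _ => rfl, fun b hb => absurd ⟨b, hb⟩ hex⟩
  refine main d D hd c hcalg hdeg π α hα σ (fun q => hσK _ (hc q)) ?_ V hV
  intro a b hab halg x hx0 hx e he
  have hcn : ∃ a, Adm π a b ∧ 2 ≤ d a := by
    refine ⟨a, hab, ?_⟩
    by_contra h2
    have h3 : d a = 1 := by
      have := (hd a).1
      omega
    exact wrh_one c hdeg a h3 x hx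
  refine ⟨l, hl, ?_, hDl⟩
  have h1 : l ∣ ol (σ : ℂ →+* ℂ) (α b) := by
    by_cases h2 : α b 1 = 0
    · have h3 := hσx b hcn halg
      simp only [h2, div_zero] at h3
      have h4 : Function.minimalPeriod σ (0 : ℂ) = 1 :=
        Function.minimalPeriod_eq_one_iff_isFixedPt.2 (map_zero σ)
      rw [h4] at h3
      exact absurd (Nat.dvd_one.1 h3) hl.ne_one
    · rw [ol_fin _ h2]
      exact hσx b hcn halg
  rw [he] at h1
  refine (hl.dvd_mul.1 h1).resolve_right fun h2 => ?_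
  have hpos : 0 < ol (σ : ℂ →+* ℂ) x ∧ ol (σ : ℂ →+* ℂ) x < l := by
    by_cases hx1 : x 1 = 0
    · rw [ol_infty _ hx1]
      exact ⟨one_pos, hl.one_lt⟩
    · rw [ol_fin _ hx1]
      have hW := wp_ne_zero c hdeg a (hd a).1
      have hz : x 0 / x 1 ∈ (Pool.Agent.Helper10.OB.wp c a).roots.toFinset := by
        rw [Multiset.mem_toFinset, Polynomial.mem_roots hW, Polynomial.IsRoot.def]
        have h3 := eval_wp c a (fun i => (x 1)⁻¹ * x i) (inv_mul_cancel₀ hx1)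
        rw [wrh_smul, hx, mul_zero] at h3
        rw [div_eq_inv_mul]
        exact h3
      have hS : ∀ y ∈ (Pool.Agent.Helper10.OB.wp c a).roots.toFinset, σ y ∈ (Pool.Agent.Helper10.OB.wp c a).roots.toFinset := by
        intro y hy
        rw [Multiset.mem_toFinset, Polynomial.mem_roots hW, Polynomial.IsRoot.def] at hy ⊢
        have h3 : (Pool.Agent.Helper10.OB.wp c a).map (σ : ℂ →+* ℂ) = Pool.Agent.Helper10.OB.wp c a := by
          rw [Pool.Agent.Helper10.OB.wp, Polynomial.map_sum]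
          refine Finset.sum_congr rfl fun i _ => ?_
          rw [Polynomial.map_sum]
          refine Finset.sum_congr rfl fun j _ => ?_
          have h4 : ∀ q, (σ : ℂ →+* ℂ) (c q) = c q := fun q => hσK _ (hc q)
          have h5 : (σ : ℂ →+* ℂ) (((i : ℕ) - (j : ℕ) : ℂ) * c ⟨a, (0, i)⟩ * c ⟨a, (1, j)⟩) =
              ((i : ℕ) - (j : ℕ) : ℂ) * c ⟨a, (0, i)⟩ * c ⟨a, (1, j)⟩ := by
            rw [map_mul, map_mul, map_sub, map_natCast, map_natCast, h4, h4]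
          rw [Polynomial.map_mul, Polynomial.map_C, Polynomial.map_pow, Polynomial.map_X, h5]
        have h4 := congrArg (σ : ℂ →+* ℂ) hy
        rw [map_zero, ← Polynomial.eval_map_apply, h3] at h4
        exact h4
      obtain ⟨h3, h4⟩ := minimalPeriod_le_card σ σ.injective _ hS _ hz
      refine ⟨h3, h4.trans_lt ?_⟩
      have h5 : (Pool.Agent.Helper10.OB.wp c a).roots.toFinset.card ≤ 2 * d a - 2 :=
        (Multiset.toFinset_card_le _).trans ((Polynomial.card_roots' _).trans (natDegree_wp c a))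
      have h6 := (hd a).2
      omega
  exact absurd (Nat.le_of_dvd hpos.1 h2) (not_le.2 hpos.2)

/-- **The theorem** -/
theorem final {k : ℕ} (d : Fin k → ℕ) (D : ℕ) (hd : ∀ a, 1 ≤ d a ∧ d a ≤ D) (c : Idx d → ℂ) (hdeg : HasDeg c)
    (π : Fin k → Fin k) (K : Subfield ℂ) (hc : ∀ q, c q ∈ K) (l : ℕ) (hl : l.Prime) (hDl : D < l)
    (hDl2 : 2 * D - 2 < l) (hk : k ≤ l) (α : Fin k → Fin 2 → ℂ) (hα : ∀ b, α b ≠ 0)
    (h : ∀ b, (∃ a, Adm π a b ∧ 2 ≤ d a) → Transcendental K (α b 0 / α b 1) ∨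
      NumberField K ∧ l ∣ (minpoly K (α b 0 / α b 1)).natDegree)
    (V : Set (MvPolynomial (Fin k × Fin 2) ℂ)) (hV : ∀ G ∈ V, MultiHom G) : ∃ S : Finset (ℕ × ℕ),
      {m : ℕ | ∀ G ∈ V, eval (fun q => (sysMap c id π)^[m] α q.1 q.2) G = 0} =
        {m | ∃ q ∈ S, ∃ j, m = q.1 + q.2 * j} := by
  by_cases hall : ∀ b, (∃ a, Adm π a b ∧ 2 ≤ d a) → Transcendental K (α b 0 / α b 1)
  · exact mainC K d (fun a => (hd a).1) c hc hdeg π α hα hall V hV
  · push Not at hall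
    obtain ⟨b, hb, hb'⟩ := hall
    obtain ⟨hK, -⟩ := (h b hb).resolve_left hb'
    refine mainN K d D hd c hc hdeg l hl hDl hDl2 hk π α hα (fun b hb => ?_) V hV
    rcases h b hb with h1 | ⟨-, h1⟩
    · left
      intro h2
      exact h1 (h2.tower_top K)
    · exact Or.inr h1

end

end Pool.Agent.Helper26.OB
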